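import Pool.Agent.MP_a2d820_lc.h31p.Spec

/-!
The rows of high level can be filled above a base point so that every root has the prescribed
value and at most one false child.
-/

set_option autoImplicit false

namespace Pool.Agent.MP_a2d820_lc.h9u

open Finset Pool.Agent.MP_a2d820_lc.h69 Pool.Agent.MP_a2d820_lc.h31p

theorem nw_add (e h : ℕ) (a : Lang) : nw (e + h) a = nw e (nw h a) := by
  induction e with
  | zero => simp [nw]
  | succ e ih => rw [Nat.add_right_comm, nw, nw, ih]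

theorem nw_succ (i : ℕ) (a : Lang) (j : List Bool) :
    nw (i + 1) a j = true ↔ ∃ w : List Bool, w.length = 8 * j.length ∧ nw i a (w ++ j) = false := by
  simp [nw]

/-- The values of the nodes of depth `k`: a node is false exactly when it is the key child of a
true node. -/
def val (key : List Bool → List Bool) (r : ℕ) (β : Bool) : ℕ → List Bool → Bool
  | 0, _ => β
  | k + 1, j => !(val key r β k (j.drop (8 * (9 ^ k * r))) &&
      decide (j.take (8 * (9 ^ k * r)) = key (j.drop (8 * (9 ^ k * r)))))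

theorem val_app (key : List Bool → List Bool) (r : ℕ) (β : Bool) {k : ℕ} {w j : List Bool}
    (hw : w.length = 8 * (9 ^ k * r)) :
    val key r β (k + 1) (w ++ j) = false ↔ val key r β k j = true ∧ w = key j := by
  rw [val, List.drop_left' hw, List.take_left' hw]
  simp

theorem nw_val {key : List Bool → List Bool} (hk : ∀ j, (key j).length = 8 * j.length) {r e : ℕ}
    {β : Bool} {a : Lang} (ha : ∀ j, j.length = 9 ^ e * r → a j = val key r β e j) (i : ℕ) :
    ∀ k j, i + k = e → j.length = 9 ^ k * r → nw i a j = val key r β k j := by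
  induction i with
  | zero =>
    intro k j h hj
    obtain rfl : k = e := by omega
    exact ha j hj
  | succ i ih =>
    intro k j h hj
    have h1 : ∀ w : List Bool, w.length = 8 * j.length →
        (nw i a (w ++ j) = false ↔ val key r β k j = true ∧ w = key j) := by
      intro w hw
      rw [ih (k + 1) (w ++ j) (by omega) (by rw [List.length_append, hw, hj, pow_succ]; ring),
        val_app key r β (by rw [hw, hj])]
    rw [Bool.eq_iff_iff, nw_succ]
    exact ⟨fun ⟨w, hw, h2⟩ => ((h1 w hw).1 h2).1, fun h2 => ⟨key j, hk j, (h1 _ (hk j)).2 ⟨h2, rfl⟩⟩⟩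

variable {E : Env}

theorem exists_key {h : ℕ} {b : Finset E.Nd} (hT : ∀ u ∈ E.I, 9 ^ E.lv u * E.rl u ≤ E.T)
    (hf : ∀ π : E.Nd, h < E.lv π.1 → π.2.1.length = 9 ^ (E.lv π.1 - h - 1) * E.rl π.1 →
      (E.ch π \ b).Nonempty) (v : E.I) (j : List Bool) :
    ∃ w : List Bool, w.length = 8 * j.length ∧ (h < E.lv v →
      j.length = 9 ^ (E.lv v - h - 1) * E.rl v → ∀ u ∈ b, u.1 = v → u.2.1 ≠ w ++ j) := by
  by_cases hc : h < E.lv v ∧ j.length = 9 ^ (E.lv v - h - 1) * E.rl v
  swap
  · exact ⟨List.replicate (8 * j.length) false, by simp, fun h1 h2 => absurd ⟨h1, h2⟩ hc⟩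
  have h1 : j.length ≤ E.T := by
    rw [hc.2]
    exact (Nat.mul_le_mul_right _ (Nat.pow_le_pow_right (by norm_num) (by omega))).trans (hT v v.2)
  obtain ⟨u, hu⟩ := hf (v, ⟨j, h1⟩) hc.1 hc.2
  obtain ⟨h2, h3⟩ := mem_sdiff.1 hu
  simp only [Env.ch, mem_filter, mem_univ, true_and] at h2
  obtain ⟨a1, a2, a3⟩ := h2
  refine ⟨u.2.1.take (8 * j.length), by rw [List.length_take]; omega, fun _ _ u' hu' b1 b2 => h3 ?_⟩
  have e : u' = u := by
    refine Prod.ext (b1.trans a1.symm) (Subtype.ext ?_)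
    rw [b2]
    conv_rhs => rw [← List.take_append_drop (8 * j.length) u.2.1, a3]
  exact e ▸ hu'

/-- The set of nodes with a prescribed value for each row. -/
def yy (h : ℕ) (key : E.I → List Bool → List Bool) (B : E.I → Bool) : Finset E.Nd :=
  univ.filter fun u => u ∈ E.Fr h → val (key u.1) (E.rl u.1) (B u.1) (E.lv u.1 - h) u.2.1 = true

/-- The rows of level above `h` are filled from the top. -/
theorem fillU (E : Env) (h : ℕ) (b : Finset E.Nd) (σ : Finset E.Nd → Lang)
    (tg : List Bool → Lang → Bool) (hT : ∀ u ∈ E.I, 9 ^ E.lv u * E.rl u ≤ E.T)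
    (htg : ∀ u ∈ E.I, Loc (9 ^ E.lv u * E.rl u) (tg u)) (hH : E.Hgt h b σ)
    (hf : ∀ π : E.Nd, h < E.lv π.1 → π.2.1.length = 9 ^ (E.lv π.1 - h - 1) * E.rl π.1 →
      (E.ch π \ b).Nonempty) :
    ∃ y, b ⊆ y ∧ ∀ v ∈ E.I, h < E.lv v → ∀ j : List Bool, j.length = E.rl v →
      nw (E.lv v) (rowOf (σ y) v) j = tg v (σ y) ∧
      ∀ w w' : List Bool, w.length = 8 * E.rl v → w'.length = 8 * E.rl v →
        nw (E.lv v - 1) (rowOf (σ y) v) (w ++ j) = false →
        nw (E.lv v - 1) (rowOf (σ y) v) (w' ++ j) = false → w = w' := by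
  choose key hk1 hk2 using exists_key hT hf
  have mem : ∀ B u, u ∈ yy h key B ↔ (u ∈ E.Fr h →
      val (key u.1) (E.rl u.1) (B u.1) (E.lv u.1 - h) u.2.1 = true) := fun B u => by simp [yy]
  have hb : ∀ B, b ⊆ yy h key B := by
    intro B u hu
    refine (mem B u).2 fun h1 => ?_
    simp only [Env.Fr, mem_filter, mem_univ, true_and] at h1
    obtain ⟨e, he⟩ : ∃ e, E.lv u.1 - h = e + 1 := ⟨E.lv u.1 - h - 1, by omega⟩
    by_contra h2
    have h3 : 8 * (9 ^ e * E.rl u.1) ≤ u.2.1.length := by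
      rw [h1.2, he, pow_succ]
      nlinarith [Nat.zero_le (9 ^ e * E.rl u.1)]
    have h4 : (u.2.1.take (8 * (9 ^ e * E.rl u.1))).length = 8 * (9 ^ e * E.rl u.1) := by
      rw [List.length_take]
      omega
    rw [Bool.not_eq_true, he, ← List.take_append_drop (8 * (9 ^ e * E.rl u.1)) u.2.1,
      val_app _ _ _ h4] at h2
    refine hk2 u.1 (u.2.1.drop (8 * (9 ^ e * E.rl u.1))) h1.1 ?_ u hu rfl ?_
    · rw [List.length_drop, h1.2, he, Nat.add_sub_cancel, pow_succ, mul_right_comm]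
      omega
    · rw [← h2.2, List.take_append_drop]
  have main : ∀ t, ∃ B : E.I → Bool, ∀ v : E.I, 9 ^ E.lv v * E.rl v < t →
      B v = tg v (σ (yy h key B)) := by
    intro t
    induction t with
    | zero => exact ⟨fun _ => true, fun v h => absurd h (Nat.not_lt_zero _)⟩
    | succ t ih =>
      obtain ⟨B, hB⟩ := ih
      let B' : E.I → Bool := fun v =>
        if 9 ^ E.lv v * E.rl v = t then tg v (σ (yy h key B)) else B v
      refine ⟨B', fun v ht => ?_⟩
      have e1 : tg v (σ (yy h key B')) = tg v (σ (yy h key B)) := by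
        refine htg v v.2 _ _ fun s hs => hH.loc _ _ t (hb B) (hb B') (fun u hu => ?_) s (by omega)
        rw [mem, mem, show B' u.1 = B u.1 from if_neg hu.ne]
      rw [e1]
      by_cases h1 : 9 ^ E.lv v * E.rl v = t
      · exact if_pos h1
      · rw [show B' v = _ from if_neg h1]
        exact hB v (by omega)
  obtain ⟨B, hB⟩ := main (E.T + 1)
  refine ⟨yy h key B, hb B, fun v hv hl j hj => ?_⟩
  obtain ⟨e, he⟩ : ∃ e, E.lv v = e + 1 + h := ⟨E.lv v - h - 1, by omega⟩
  have ha : ∀ j' : List Bool, j'.length = 9 ^ (e + 1) * E.rl v →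
      nw h (rowOf (σ (yy h key B)) v) j' = val (key ⟨v, hv⟩) (E.rl v) (B ⟨v, hv⟩) (e + 1) j' := by
    intro j' hj'
    have h1 : j'.length ≤ E.T := by
      rw [hj']
      exact (Nat.mul_le_mul_right _ (Nat.pow_le_pow_right (by norm_num) (by omega))).trans (hT v hv)
    have h2 : E.lv v - h = e + 1 := by omega
    have h3 : ((⟨v, hv⟩, ⟨j', h1⟩) : E.Nd) ∈ E.Fr h := by
      simp only [Env.Fr, mem_filter, mem_univ, true_and]
      exact ⟨hl, by rw [hj', h2]⟩
    rw [Bool.eq_iff_iff]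
    refine (hH.tree _ (hb B) _ h3).trans ((mem B _).trans ?_)
    simp only [h2]
    exact ⟨fun h4 => h4 h3, fun h4 _ => h4⟩
  have hv' := nw_val (hk1 ⟨v, hv⟩) ha
  refine ⟨?_, fun w w' hw hw' h1 h2 => ?_⟩
  · rw [← hB ⟨v, hv⟩ (Nat.lt_succ_of_le (hT v hv)), he, nw_add]
    exact hv' (e + 1) 0 j rfl (by simpa using hj)
  · have h3 : ∀ z : List Bool, z.length = 8 * E.rl v →
        nw (E.lv v - 1) (rowOf (σ (yy h key B)) v) (z ++ j) = false → z = key ⟨v, hv⟩ j := by
      intro z hz h4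
      rw [show E.lv v - 1 = e + h by omega, nw_add,
        hv' e 1 (z ++ j) rfl (by rw [List.length_append, hz, hj]; ring)] at h4
      exact ((val_app _ _ _ (k := 0) (by simpa using hz)).1 h4).2
    rw [h3 w hw h1, h3 w' hw' h2]

/-- The last step: the row `x` gets the value opposite to `f`, all other rows of level above `h`
get their targets. -/
theorem lastU (E : Env) (h c : ℕ) (b S : Finset E.Nd) (σ : Finset E.Nd → Lang)
    (mu : List Bool → Lang → Bool) (x : List Bool) (f : Lang → Bool)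
    (hT : ∀ u ∈ E.I, 9 ^ E.lv u * E.rl u ≤ E.T)
    (hmu : ∀ u ∈ E.I, Loc (9 ^ E.lv u * E.rl u) (mu u)) (hH : E.Hgt h b σ)
    (hc : Cert b S c fun y => f (σ y) = true)
    (hf : ∀ π : E.Nd, h < E.lv π.1 → π.2.1.length = 9 ^ (E.lv π.1 - h - 1) * E.rl π.1 →
      c < (E.ch π \ b).card) :
    ∃ y, b ⊆ y ∧ ∀ v ∈ E.I, h < E.lv v → ∀ j : List Bool, j.length = E.rl v →
      (v ≠ x → nw (E.lv v) (rowOf (σ y) v) j = mu v (σ y)) ∧
      (v = x → f (σ y) ≠ nw (E.lv v) (rowOf (σ y) v) j) ∧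
      ∀ w w' : List Bool, w.length = 8 * E.rl v → w'.length = 8 * E.rl v →
        nw (E.lv v - 1) (rowOf (σ y) v) (w ++ j) = false →
        nw (E.lv v - 1) (rowOf (σ y) v) (w' ++ j) = false → w = w' := by
  obtain ⟨D, hD, hD'⟩ : ∃ D : Finset E.Nd, D.card ≤ c ∧
      ∀ y, b ∪ D ⊆ y → f (σ y) = f (σ univ) := by
    have ag : ∀ D y : Finset E.Nd, b ∪ D ⊆ y → Agr D univ y := fun D y hy v hv =>
      iff_of_true (hy (mem_union_right _ hv)) (mem_univ v)
    by_cases h0 : f (σ univ) = true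
    · obtain ⟨D, -, h1, h2⟩ := hc.1 univ (subset_univ b) h0
      exact ⟨D, h1, fun y hy => (h2 y (subset_union_left.trans hy) (ag D y hy)).trans h0.symm⟩
    · obtain ⟨D, -, h1, h2⟩ := hc.2 univ (subset_univ b) h0
      refine ⟨D, h1, fun y hy => ?_⟩
      have h3 := h2 y (subset_union_left.trans hy) (ag D y hy)
      rw [Bool.not_eq_true] at h0 h3
      rw [h0, h3]
  obtain ⟨y, hy, h1⟩ := fillU E h (b ∪ D) σ (fun v A => if v = x then !f (σ univ) else mu v A) hT
    (fun u hu A A' hA => by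
      by_cases h2 : u = x
      · simp only [if_pos h2]
      · simp only [if_neg h2]
        exact hmu u hu A A' hA)
    ⟨fun y hy => hH.tree y (subset_union_left.trans hy), fun y y' t hy hy' =>
      hH.loc y y' t (subset_union_left.trans hy) (subset_union_left.trans hy')⟩
    (fun π h2 h3 => by
      obtain ⟨u, a1, a2⟩ := exists_mem_notMem_of_card_lt_card (hD.trans_lt (hf π h2 h3))
      exact ⟨u, mem_sdiff.2 ⟨(mem_sdiff.1 a1).1, fun a3 =>
        (mem_union.1 a3).elim (mem_sdiff.1 a1).2 a2⟩⟩)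
  refine ⟨y, subset_union_left.trans hy, fun v hv hl j hj => ?_⟩
  obtain ⟨h2, h3⟩ := h1 v hv hl j hj
  refine ⟨fun h4 => h2.trans (if_neg h4), fun h4 => ?_, h3⟩
  rw [h2, if_pos h4, hD' y hy]
  simp

end Pool.Agent.MP_a2d820_lc.h9u
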