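import Mathlib
import Pool.Agent.MP_a2d820_lc.h22.Core

/-!
One round of the construction of monotone codes, with weighted and partly visible variables.
-/

set_option autoImplicit false

namespace Pool.Agent.MP_a2d820_lc.h9

open Finset Pool.Agent.MP_a2d820_lc.h69 Pool.Agent.MP_a2d820_lc.h22

/-- The cost allowed for the certificates of a code. -/
def sz (t : ℕ) : ℕ := 2 * ((2 * t + 1) * (t * t)) + t

/-- The depth of the trees after a round. -/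
def dp (t : ℕ) : ℕ := 42 * t ^ 5

variable {Y Q ι : Type}

/-- The cost of the certificates of a region. -/
def wd (kd : ι → Y ⊕ Q × ℕ) (ν : Y → ℕ) (t : Q → ℕ) (R : ι) : ℕ :=
  Sum.elim ν (fun p => sz (t p.1)) (kd R)

/-- The first level at which a region is visible. -/
def lv (kd : ι → Y ⊕ Q × ℕ) (vl : Y → ℕ) (lev : Q → ℕ) (R : ι) : ℕ :=
  Sum.elim vl (fun p => lev p.1 + 1) (kd R)

/-- The depth of the tree that decides whether a region is on. -/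
def dr (kd : ι → Y ⊕ Q × ℕ) (t : Q → ℕ) (R : ι) : ℕ :=
  Sum.elim (fun _ => 1) (fun p => dp (t p.1)) (kd R)

/-- The configuration in which the variables outside `V` are true. -/
def cfg [Fintype Y] [DecidableEq Y] (V : Finset Y) (z : Y → Bool) : Finset Y :=
  {y | y ∉ V ∨ z y = true}

/-- The round lemma. -/
def RoundStmt : Prop :=
  ∀ (Y Q ι : Type) (Key : ι → Type) [Fintype Y] [DecidableEq Y] [Fintype Q] [Fintype ι]
    [DecidableEq ι] [∀ R, Fintype (Key R)] [∀ R, DecidableEq (Key R)] [∀ R, Nonempty (Key R)]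
    (kd : ι → Y ⊕ Q × ℕ) (lev t : Q → ℕ) (vl ν : Y → ℕ)
    (F : Q → ((Σ R, Key R) → Bool) → Bool) (val : Q → ((Σ R, Key R) → Bool) → ℕ)
    (Ds : Q → ((Σ R, Key R) → Bool) → Finset (Σ R, Key R)) (L D M : ℕ) (a : ι → ℝ) (x : ℝ)
    (C : Finset (Σ R, Key R)) (Near : ℕ → Y → Y → Prop),
    (∀ q, Pot (F q) (val q) (Ds q)) → (∀ q, lev q < L) → (∀ q A, (Ds q A).card ≤ t q) →
    (∀ q, 1 ≤ t q ∧ t q ≤ D) → ∑ q, (1 / 2 : ℝ) ^ t q ≤ 1 / 16 →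
    (∀ y, 1 ≤ ν y) → ∑ y, (1 / 2 : ℝ) ^ ν y ≤ 1 → (∀ R, 0 ≤ a R) → ∑ R, a R ≤ 1 →
    (∀ q A, ∀ l ∈ Ds q A, lv kd vl lev l.1 ≤ lev q ∧ wd kd ν t l.1 ≤ t q ∧
      ((6 * D * 2 ^ (9 * wd kd ν t l.1) : ℕ) : ℝ) ≤ a l.1 * Fintype.card (Key l.1)) →
    ∑ l ∈ C, (1 / Fintype.card (Key l.1) : ℝ) ≤ 1 / 4 →
    0 < x → 2 ^ 18 * (D : ℝ) ^ 5 * x ≤ 1 → 1 ≤ D → 2 * (Fintype.card Y : ℝ) ≤ (1 + x) ^ M →
    (∀ y, Near 0 y y) →
    (∀ n ≤ L, ∀ V : Finset Y, (∀ y, ∃ y' ∈ V, Near n y y') →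
      ∀ y, ∃ K ⊆ V, M ≤ K.card ∧ ∀ y' ∈ K, Near (n + 1) y y') →
    ∃ (V : Finset Y) (acc : Acc Y Key) (κ : ∀ R, Key R),
      (∀ y, ∃ y' ∈ V, Near (L + 1) y y') ∧ (∀ l ∈ C, κ l.1 ≠ l.2) ∧
      (∀ R y, kd R = .inl y → ∀ c, acc c κ R ↔ y ∈ c) ∧
      (∀ q z, ∃ I < 2 * t q + 1, F q (bits acc (cfg V z) κ) = I.bodd ∧
        (1 ≤ I → ∃ A, F q A = true) ∧
        ∀ R j, kd R = .inr (q, j) → (acc (cfg V z) κ R ↔ j ≤ I)) ∧
      (∀ q, DT (dp (t q)) fun z => F q (bits acc (cfg V z) κ)) ∧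
      (∀ l, DT (dr kd t l.1) fun z => bits acc (cfg V z) κ l) ∧
      ∀ l z z', (∀ y, vl y ≤ lv kd vl lev l.1 → z y = z' y) →
        bits acc (cfg V z) κ l = bits acc (cfg V z') κ l

end Pool.Agent.MP_a2d820_lc.h9
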