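import Mathlib
import Pool.Agent.MP_a2d820_lc.h9.Spec

/-!
Walks with weighted variables that hit many keys are rare.
-/

set_option autoImplicit false

namespace Pool.Agent.MP_a2d820_lc.h9

open Finset Pool.Agent.MP_a2d820_lc.h69 Pool.Agent.MP_a2d820_lc.h22

variable {Y ι : Type} {Key : ι → Type}

theorem sum_prod_le {α : Type} [Fintype α] [DecidableEq α] {a : α → ℝ} (ha : ∀ R, 0 ≤ a R)
    (ha1 : ∑ R, a R ≤ 1) : ∑ S : Finset α, ∏ R ∈ S, a R ≤ 3 := by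
  rw [← powerset_univ, ← prod_one_add]
  refine (prod_le_prod (fun R _ => by have := ha R; positivity) fun R _ =>
    (add_comm 1 (a R) ▸ Real.add_one_le_exp (a R) : 1 + a R ≤ Real.exp (a R))).trans ?_
  rw [← Real.exp_sum]
  exact (Real.exp_le_exp.2 ha1).trans (Real.exp_one_lt_d9.le.trans (by norm_num))

theorem kraft [Fintype Y] [DecidableEq Y] {ν : Y → ℕ} (hν : ∑ y, (1 / 2 : ℝ) ^ ν y ≤ 1) :
    ∑ X : Finset Y, (1 / 2 : ℝ) ^ (∑ y ∈ X, ν y) ≤ 3 := by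
  simpa only [prod_pow_eq_pow_sum] using
    sum_prod_le (a := fun y => (1 / 2 : ℝ) ^ ν y) (fun _ => by positivity) hν

theorem card_cost [Fintype Y] [DecidableEq Y] {ν : Y → ℕ} (hν : ∑ y, (1 / 2 : ℝ) ^ ν y ≤ 1)
    (w : ℕ) : (#{X : Finset Y | ∑ y ∈ X, ν y ≤ w} : ℝ) ≤ 3 * 2 ^ w := by
  have h1 : (#{X : Finset Y | ∑ y ∈ X, ν y ≤ w} : ℝ) * (1 / 2) ^ w ≤ 3 := by
    rw [← nsmul_eq_mul]
    refine le_trans (card_nsmul_le_sum _ (fun X => (1 / 2 : ℝ) ^ (∑ y ∈ X, ν y)) _ fun X hX =>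
      pow_le_pow_of_le_one (by norm_num) (by norm_num) (mem_filter.1 hX).2)
      ((sum_le_sum_of_subset_of_nonneg (subset_univ _) fun _ _ _ => by positivity).trans (kraft hν))
  rw [one_div, inv_pow, ← div_eq_mul_inv, div_le_iff₀ (by positivity)] at h1
  exact h1

theorem card_biUnion_real {α β : Type} [DecidableEq β] (s : Finset α) (t : α → Finset β) :
    ((s.biUnion t).card : ℝ) ≤ ∑ a ∈ s, ((t a).card : ℝ) := by
  exact_mod_cast card_biUnion_le

variable [DecidableEq Y] [DecidableEq ι]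

/-- Walks that add sets of variables at their cost or hit the key of a region that is off. -/
inductive Wk (acc : Acc Y Key) (Ds : ((Σ R, Key R) → Bool) → Finset (Σ R, Key R)) (ν : Y → ℕ)
    (w : ι → ℕ) (κ : ∀ R, Key R) : Finset Y → ℕ → Finset ι → Prop
  | stop (e : Finset Y) : Wk acc Ds ν w κ e 0 ∅
  | add (e P : Finset Y) (u : ℕ) (S : Finset ι) (h : Wk acc Ds ν w κ (e ∪ P) u S) :
      Wk acc Ds ν w κ e (u + (∑ y ∈ P, ν y + 1)) S
  | hit (e X : Finset Y) (l : Σ R, Key R) (u : ℕ) (S : Finset ι) (h1 : l ∈ Ds (bits acc e κ))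
      (h2 : κ l.1 = l.2) (h3 : ¬acc e κ l.1) (h4 : ∑ y ∈ X, ν y ≤ w l.1) (h5 : l.1 ∉ S)
      (h : Wk acc Ds ν w κ (e ∪ X) u S) : Wk acc Ds ν w κ e u (insert l.1 S)

variable {acc : Acc Y Key} {Ds : ((Σ R, Key R) → Bool) → Finset (Σ R, Key R)} {ν : Y → ℕ}
  {w : ι → ℕ}

theorem Wk.off (hM : Mono acc) {κ : ∀ R, Key R} {e : Finset Y} {u : ℕ} {S : Finset ι}
    (h : Wk acc Ds ν w κ e u S) : ∀ R ∈ S, ¬acc e κ R := by
  induction h with
  | stop e => simp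
  | add e P u S _ ih => exact fun R hR ha => ih R hR (hM _ _ _ _ subset_union_left ha)
  | hit e X l u S _ _ h3 _ _ _ ih =>
    intro R hR ha
    rcases mem_insert.1 hR with rfl | hR
    · exact h3 ha
    · exact ih R hR (hM _ _ _ _ subset_union_left ha)

theorem Wk.vis {κ : ∀ R, Key R} {e : Finset Y} {u : ℕ} {S : Finset ι}
    (h : Wk acc Ds ν w κ e u S) : ∀ R ∈ S, ∃ A, ∃ l ∈ Ds A, l.1 = R := by
  induction h with
  | stop e => simp
  | add e P u S _ ih => exact ih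
  | hit e X l u S h1 _ _ _ _ _ ih =>
    intro R hR
    rcases mem_insert.1 hR with rfl | hR
    · exact ⟨_, l, h1, rfl⟩
    · exact ih R hR

theorem Wk.inv {κ : ∀ R, Key R} {e : Finset Y} {u : ℕ} {S : Finset ι}
    (h : Wk acc Ds ν w κ e u S) : (u = 0 ∧ S = ∅) ∨
      (∃ P : Finset Y, ∑ y ∈ P, ν y + 1 ≤ u ∧
        Wk acc Ds ν w κ (e ∪ P) (u - (∑ y ∈ P, ν y + 1)) S) ∨
      ∃ l ∈ Ds (bits acc e κ), ∃ X : Finset Y, κ l.1 = l.2 ∧ ∑ y ∈ X, ν y ≤ w l.1 ∧ l.1 ∈ S ∧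
        Wk acc Ds ν w κ (e ∪ X) u (S.erase l.1) := by
  cases h with
  | stop => exact Or.inl ⟨rfl, rfl⟩
  | add _ P u _ h => exact Or.inr (Or.inl ⟨P, by omega, by rwa [Nat.add_sub_cancel]⟩)
  | hit _ X l _ S h1 h2 _ h4 h5 h =>
    exact Or.inr (Or.inr ⟨l, h1, X, h2, h4, mem_insert_self _ _, by rwa [erase_insert h5]⟩)

variable [Fintype Y] [Fintype ι] [∀ R, Fintype (Key R)] [∀ R, DecidableEq (Key R)]

open Classical in
theorem card_fib (hM : Mono acc) (hL : Loc acc) {D : ℕ} (hD : ∀ A, (Ds A).card ≤ D)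
    (hν : ∑ y, (1 / 2 : ℝ) ^ ν y ≤ 1) (N : ℕ) (e : Finset Y) (u : ℕ) (S : Finset ι)
    (κ₀ : ∀ R, Key R) (hN : u + S.card ≤ N) :
    (#{κ : ∀ R, Key R | (∀ R ∉ S, κ R = κ₀ R) ∧ Wk acc Ds ν w κ e u S} : ℝ) ≤
      8 ^ u * ∏ R ∈ S, (6 * D * 2 ^ w R : ℝ) := by
  have base : ∀ (e : Finset Y) (κ₀ : ∀ R, Key R),
      (#{κ : ∀ R, Key R | (∀ R ∉ (∅ : Finset ι), κ R = κ₀ R) ∧ Wk acc Ds ν w κ e 0 ∅} : ℝ) ≤
      8 ^ 0 * ∏ R ∈ (∅ : Finset ι), (6 * D * 2 ^ w R : ℝ) := by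
    intro e κ₀
    simp only [pow_zero, prod_empty, mul_one, Nat.cast_le_one]
    refine card_le_one.2 fun a ha b hb => funext fun R => ?_
    rw [(mem_filter.1 ha).2.1 R (by simp), (mem_filter.1 hb).2.1 R (by simp)]
  induction N generalizing e u S κ₀ with
  | zero =>
    obtain rfl : u = 0 := by omega
    obtain rfl : S = ∅ := card_eq_zero.1 (by omega)
    exact base e κ₀
  | succ N ih =>
    by_cases h0 : u = 0 ∧ S = ∅
    · obtain ⟨rfl, rfl⟩ := h0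
      exact base e κ₀
    set Pi : ℝ := ∏ R ∈ S, (6 * D * 2 ^ w R : ℝ) with hPi
    have hPi0 : 0 ≤ Pi := prod_nonneg fun _ _ => by positivity
    let F₁ : Finset (∀ R, Key R) := univ.biUnion fun P : Finset Y =>
      {κ : ∀ R, Key R | ∑ y ∈ P, ν y + 1 ≤ u ∧ (∀ R ∉ S, κ R = κ₀ R) ∧
        Wk acc Ds ν w κ (e ∪ P) (u - (∑ y ∈ P, ν y + 1)) S}
    let F₂ : Finset (∀ R, Key R) := ((Ds (bits acc e κ₀)).filter (·.1 ∈ S)).biUnion fun l =>
      ({X : Finset Y | ∑ y ∈ X, ν y ≤ w l.1} : Finset _).biUnion fun X =>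
        {κ : ∀ R, Key R | (∀ R ∉ S.erase l.1, κ R = Function.update κ₀ l.1 l.2 R) ∧
          Wk acc Ds ν w κ (e ∪ X) u (S.erase l.1)}
    have hsub : ({κ : ∀ R, Key R | (∀ R ∉ S, κ R = κ₀ R) ∧ Wk acc Ds ν w κ e u S} :
        Finset _) ⊆ F₁ ∪ F₂ := by
      intro κ hκ
      obtain ⟨b0, b1⟩ := (mem_filter.1 hκ).2
      have b2 := b1.off hM
      rcases b1.inv with h | ⟨P, h1, h⟩ | ⟨l, h1, X, h2, h4, h5, h⟩
      · exact absurd h h0
      · exact mem_union_left _ (mem_biUnion.2 ⟨P, mem_univ _,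
          mem_filter.2 ⟨mem_univ _, h1, b0, h⟩⟩)
      · have e1 : bits acc e κ₀ = bits acc e κ :=
          hL.bits fun R hR => (b0 R fun h => b2 R h hR).symm
        refine mem_union_right _ (mem_biUnion.2 ⟨l, mem_filter.2 ⟨e1 ▸ h1, h5⟩, mem_biUnion.2
          ⟨X, mem_filter.2 ⟨mem_univ _, h4⟩, mem_filter.2 ⟨mem_univ _, fun R hR => ?_, h⟩⟩⟩)
        by_cases e' : R = l.1
        · subst e'
          rw [Function.update_self, h2]
        · rw [Function.update_of_ne e']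
          exact b0 R fun h => hR (mem_erase.2 ⟨e', h⟩)
    have h1 : (F₁.card : ℝ) ≤ 8 ^ u * Pi / 2 := by
      refine (card_biUnion_real _ _).trans ((sum_le_sum (g := fun P : Finset Y =>
        8 ^ u * Pi / 8 * (1 / 2 : ℝ) ^ (∑ y ∈ P, ν y)) fun P _ => ?_).trans ?_)
      · by_cases hP : ∑ y ∈ P, ν y + 1 ≤ u
        · obtain ⟨u', rfl⟩ := Nat.exists_eq_add_of_le' hP
          refine le_trans (Nat.cast_le.2 (card_le_card fun κ hκ => mem_filter.2
            ⟨mem_univ _, (mem_filter.1 hκ).2.2⟩)) ((ih (e ∪ P) _ S κ₀ (by omega)).trans ?_)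
          rw [Nat.add_sub_cancel, pow_add, pow_succ]
          have h2 : (1 : ℝ) ≤ 8 ^ (∑ y ∈ P, ν y) * (1 / 2) ^ (∑ y ∈ P, ν y) := by
            rw [← mul_pow]
            exact one_le_pow₀ (by norm_num)
          have h3 : (0 : ℝ) ≤ 8 ^ u' * Pi := by positivity
          nlinarith
        · rw [filter_false_of_mem fun κ _ h => hP h.1, card_empty, Nat.cast_zero]
          positivity
      · rw [← mul_sum]
        have h2 := kraft hν
        have h3 : (0 : ℝ) ≤ 8 ^ u * Pi := by positivity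
        nlinarith
    have h2 : (F₂.card : ℝ) ≤ 8 ^ u * Pi / 2 := by
      rcases Nat.eq_zero_or_pos D with rfl | hD0
      · have : Ds (bits acc e κ₀) = ∅ := card_eq_zero.1 (Nat.le_zero.1 (hD _))
        simp only [F₂, this, filter_empty, biUnion_empty, card_empty, Nat.cast_zero]
        positivity
      have hD1 : (0 : ℝ) < D := by exact_mod_cast hD0
      refine (card_biUnion_real _ _).trans ((sum_le_card_nsmul _ _ (8 ^ u * Pi / 2 / D)
        fun l hl => ?_).trans ?_)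
      · have h3 := (mem_filter.1 hl).2
        have h4 := card_erase_add_one h3
        refine (card_biUnion_real _ _).trans ((sum_le_card_nsmul _ _ _ fun X _ =>
          ih (e ∪ X) u _ _ (by omega)).trans ?_)
        rw [nsmul_eq_mul, hPi, ← mul_prod_erase S _ h3]
        refine (mul_le_mul_of_nonneg_right (card_cost hν _) (mul_nonneg (by positivity)
          (prod_nonneg fun _ _ => by positivity))).trans (le_of_eq ?_)
        field_simp
        ring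
      · rw [nsmul_eq_mul]
        refine (mul_le_mul_of_nonneg_right (Nat.cast_le.2 ((card_filter_le _ _).trans (hD _)))
          (by positivity)).trans (le_of_eq ?_)
        field_simp
    have h3 : (_ : ℝ) ≤ _ := Nat.cast_le.2 ((card_le_card hsub).trans (card_union_le _ _))
    rw [Nat.cast_add] at h3
    linarith

open Classical in
theorem card_walk (hM : Mono acc) (hL : Loc acc) {D : ℕ} (hD : ∀ A, (Ds A).card ≤ D)
    (hν : ∑ y, (1 / 2 : ℝ) ^ ν y ≤ 1) (e : Finset Y) (u : ℕ) (S : Finset ι) :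
    (#{κ : ∀ R, Key R | Wk acc Ds ν w κ e u S} : ℝ) * ∏ R ∈ S, (Fintype.card (Key R) : ℝ) ≤
      Fintype.card (∀ R, Key R) * (8 ^ u * ∏ R ∈ S, (6 * D * 2 ^ w R : ℝ)) := by
  have key := card_mul_le_card_mul (s := {κ : ∀ R, Key R | Wk acc Ds ν w κ e u S})
    (t := univ) (m := ∏ R ∈ S, Fintype.card (Key R))
    (n := ⌊8 ^ u * ∏ R ∈ S, (6 * D * 2 ^ w R : ℝ)⌋₊)
    (fun κ κ₀ : ∀ R, Key R => ∀ R ∉ S, κ R = κ₀ R) (fun κ _ => ?_) fun κ₀ _ => ?_
  · have h1 : (_ : ℝ) ≤ _ := Nat.cast_le.2 key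
    push_cast at h1
    refine h1.trans ?_
    rw [card_univ]
    exact mul_le_mul_of_nonneg_left (Nat.floor_le (mul_nonneg (by positivity)
      (prod_nonneg fun _ _ => by positivity))) (by positivity)
  · have h2 : (Fintype.piFinset fun R => if R ∈ S then univ else {κ R}) ⊆
        (univ : Finset (∀ R, Key R)).bipartiteAbove
          (fun κ κ₀ : ∀ R, Key R => ∀ R ∉ S, κ R = κ₀ R) κ := by
      intro κ₀ h
      refine (mem_bipartiteAbove _).2 ⟨mem_univ _, fun R hR => ?_⟩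
      have := Fintype.mem_piFinset.1 h R
      rw [if_neg hR, mem_singleton] at this
      exact this.symm
    refine le_trans ?_ (card_le_card h2)
    rw [Fintype.card_piFinset, ← prod_ite_mem_eq]
    refine prod_le_prod' fun R _ => ?_
    split_ifs with h
    · simp
    · simp
  · refine Nat.le_floor (le_trans (Nat.cast_le.2 (card_le_card fun κ hκ => ?_))
      (card_fib (w := w) hM hL hD hν _ e u S κ₀ le_rfl))
    obtain ⟨h3, h4⟩ := (mem_bipartiteBelow _).1 hκ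
    exact mem_filter.2 ⟨mem_univ _, h4, (mem_filter.1 h3).2⟩

open Classical in
/-- For most keys, every walk from `e` hits little weight. -/
theorem few_hits (hM : Mono acc) (hL : Loc acc) {D : ℕ} (hD : ∀ A, (Ds A).card ≤ D)
    (hν : ∑ y, (1 / 2 : ℝ) ^ ν y ≤ 1) {a : ι → ℝ} (ha : ∀ R, 0 ≤ a R) (ha1 : ∑ R, a R ≤ 1)
    [∀ R, Nonempty (Key R)] (hkey : ∀ A, ∀ l ∈ Ds A,
      ((6 * D * 2 ^ (9 * w l.1) : ℕ) : ℝ) ≤ a l.1 * Fintype.card (Key l.1))
    (e : Finset Y) (τ : ℕ) :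
    (#{κ : ∀ R, Key R | ∃ u S, Wk acc Ds ν w κ e u S ∧ u + τ < 2 * ∑ R ∈ S, w R} : ℝ) ≤
      (1 / 2) ^ τ * Fintype.card (∀ R, Key R) := by
  set K : ℝ := (Fintype.card (∀ R, Key R) : ℝ) with hK
  have hK0 : 0 ≤ K := Nat.cast_nonneg _
  let G : ℕ → Finset ι → Finset (∀ R, Key R) := fun u S =>
    {κ | Wk acc Ds ν w κ e u S ∧ u + τ < 2 * ∑ R ∈ S, w R}
  have h1 : ∀ u S, ((G u S).card : ℝ) ≤
      K * (1 / 16) ^ (τ + 1) * (1 / 2) ^ u * ∏ R ∈ S, a R := by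
    intro u S
    rcases (G u S).eq_empty_or_nonempty with h | ⟨κ₁, h₁⟩
    · rw [h, card_empty, Nat.cast_zero]
      exact mul_nonneg (by positivity) (prod_nonneg fun R _ => ha R)
    obtain ⟨hW, hS⟩ := (mem_filter.1 h₁).2
    have h2 := (mul_le_mul_of_nonneg_right (Nat.cast_le.2 (card_le_card (s := G u S) fun κ hκ =>
      mem_filter.2 ⟨mem_univ _, (mem_filter.1 hκ).2.1⟩)) (prod_nonneg fun _ _ =>
        Nat.cast_nonneg _)).trans (card_walk (w := w) hM hL hD hν e u S)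
    have h3 : (∏ R ∈ S, (6 * D * 2 ^ w R : ℝ)) * 16 ^ (2 * ∑ R ∈ S, w R) ≤
        (∏ R ∈ S, a R) * ∏ R ∈ S, (Fintype.card (Key R) : ℝ) := by
      rw [mul_sum, ← prod_pow_eq_pow_sum, ← prod_mul_distrib, ← prod_mul_distrib]
      refine prod_le_prod (fun R _ => by positivity) fun R hR => ?_
      obtain ⟨A, l, hl, rfl⟩ := hW.vis R hR
      refine le_trans (le_of_eq ?_) (hkey A l hl)
      push_cast
      rw [show (16 : ℝ) = 2 ^ 4 by norm_num, ← pow_mul, mul_assoc, ← pow_add]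
      congr 2
      ring
    have h4 : (0 : ℝ) < ∏ R ∈ S, (Fintype.card (Key R) : ℝ) :=
      prod_pos fun R _ => by exact_mod_cast Fintype.card_pos
    have h5 : (8 : ℝ) ^ u ≤ (1 / 16) ^ (τ + 1) * (1 / 2) ^ u * 16 ^ (2 * ∑ R ∈ S, w R) := by
      refine le_trans (le_of_eq ?_) (mul_le_mul_of_nonneg_left (pow_le_pow_right₀ (by norm_num)
        (show τ + 1 + u ≤ _ by omega)) (by positivity))
      rw [pow_add (16 : ℝ) _ u, mul_mul_mul_comm, ← mul_pow, ← mul_pow]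
      norm_num
    refine le_of_mul_le_mul_right (h2.trans ?_) h4
    have h6 : (0 : ℝ) ≤ ∏ R ∈ S, (6 * D * 2 ^ w R : ℝ) := prod_nonneg fun _ _ => by positivity
    calc _ ≤ K * ((1 / 16) ^ (τ + 1) * (1 / 2) ^ u * 16 ^ (2 * ∑ R ∈ S, w R) *
          ∏ R ∈ S, (6 * D * 2 ^ w R : ℝ)) := by gcongr
      _ = K * (1 / 16) ^ (τ + 1) * (1 / 2) ^ u *
          ((∏ R ∈ S, (6 * D * 2 ^ w R : ℝ)) * 16 ^ (2 * ∑ R ∈ S, w R)) := by ring
      _ ≤ K * (1 / 16) ^ (τ + 1) * (1 / 2) ^ u *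
          ((∏ R ∈ S, a R) * ∏ R ∈ S, (Fintype.card (Key R) : ℝ)) := by gcongr
      _ = _ := by ring
  have h3 : ({κ : ∀ R, Key R | ∃ u S, Wk acc Ds ν w κ e u S ∧ u + τ < 2 * ∑ R ∈ S, w R} :
      Finset _) ⊆ (range (2 * ∑ R, w R)).biUnion fun u => univ.biUnion (G u) := by
    intro κ hκ
    obtain ⟨u, S, a2, a3⟩ := (mem_filter.1 hκ).2
    have a4 : ∑ R ∈ S, w R ≤ ∑ R, w R := sum_le_sum_of_subset (subset_univ _)
    exact mem_biUnion.2 ⟨u, mem_range.2 (by omega), mem_biUnion.2 ⟨S, mem_univ _,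
      mem_filter.2 ⟨mem_univ _, a2, a3⟩⟩⟩
  refine (Nat.cast_le.2 (card_le_card h3)).trans ((card_biUnion_real _ _).trans
    ((sum_le_sum (g := fun u => K * (1 / 16) ^ (τ + 1) * 3 * (1 / 2 : ℝ) ^ u) fun u _ =>
      (card_biUnion_real _ _).trans ((sum_le_sum fun S _ => h1 u S).trans ?_)).trans ?_))
  · rw [← mul_sum, mul_right_comm _ 3]
    exact mul_le_mul_of_nonneg_left (sum_prod_le ha ha1) (by positivity)
  · rw [← mul_sum]
    have h4 := sum_geometric_two_le (2 * ∑ R, w R)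
    have h5 : (1 / 16 : ℝ) ^ τ ≤ (1 / 2) ^ τ := pow_le_pow_left₀ (by norm_num) (by norm_num) _
    have h6 : (0 : ℝ) ≤ (1 / 16) ^ τ := by positivity
    calc _ ≤ K * (1 / 16) ^ (τ + 1) * 3 * 2 := by gcongr
      _ = K * (3 / 8 * (1 / 16) ^ τ) := by ring
      _ ≤ K * (1 / 2) ^ τ := mul_le_mul_of_nonneg_left (by linarith) hK0
      _ = _ := mul_comm _ _

end Pool.Agent.MP_a2d820_lc.h9
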