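import Mathlib
import Pool.Agent.MP_a2d820_lc.h9.Hit

/-!
Tight chains are cheap, sensitive sets are small, and alternating chains are short.
-/

set_option autoImplicit false

namespace Pool.Agent.MP_a2d820_lc.h9

open Finset Pool.Agent.MP_a2d820_lc.h69 Pool.Agent.MP_a2d820_lc.h22

variable {Y ι : Type} {Key : ι → Type} [DecidableEq Y]

theorem greedy (C : Y → Finset Y) {E : ℕ} (hE : ∀ g, (C g).card ≤ E) (hC : ∀ g, g ∉ C g) (r : ℕ)
    (T : Finset Y) (h : r * (E + 1) ≤ T.card) : ∃ S ⊆ T, S.card = r ∧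
      ∀ S' ⊆ S, S'.Nonempty → ∃ g ∈ S', Disjoint S' (C g) := by
  induction r generalizing T with
  | zero => exact ⟨∅, empty_subset _, rfl, fun S' h1 h2 => by
      rw [subset_empty.1 h1] at h2; simp at h2⟩
  | succ r ih =>
    rw [Nat.succ_mul] at h
    obtain ⟨g, hg⟩ : T.Nonempty := card_pos.1 (by omega)
    have h1 := le_card_sdiff (insert g (C g)) T
    have h2 := card_insert_le g (C g)
    have h3 := hE g
    obtain ⟨S, a1, a2, a3⟩ := ih (T \ insert g (C g)) (by omega)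
    have a4 : g ∉ S := fun h => (mem_sdiff.1 (a1 h)).2 (mem_insert_self _ _)
    refine ⟨insert g S, insert_subset hg (a1.trans sdiff_subset),
      by rw [card_insert_of_notMem a4, a2], fun S' b1 b2 => ?_⟩
    by_cases b3 : g ∈ S'
    · refine ⟨g, b3, disjoint_left.2 fun y b4 b5 => ?_⟩
      rcases mem_insert.1 (b1 b4) with rfl | b6
      · exact hC _ b5
      · exact (mem_sdiff.1 (a1 b6)).2 (mem_insert_of_mem b5)
    · exact a3 S' ((subset_insert_iff_of_notMem b3).1 b1) b2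

/-- The sensitive variables outside the base point. -/
def sn (f : Finset Y → Bool) (b₀ c : Finset Y) : Finset Y :=
  (c \ b₀).filter fun g => f (c.erase g) ≠ f c

/-- The sensitive set, when it is small. -/
def sns (f : Finset Y → Bool) (b₀ : Finset Y) (σ : ℕ) (c : Finset Y) : Finset Y :=
  if (sn f b₀ c).card ≤ σ then sn f b₀ c else ∅

theorem card_sns (f : Finset Y → Bool) (b₀ : Finset Y) (σ : ℕ) (c : Finset Y) :
    (sns f b₀ σ c).card ≤ σ := by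
  unfold sns
  split_ifs with h
  · exact h
  · simp

theorem tight_sn {f : Finset Y → Bool} {b₀ c c' : Finset Y} (h0 : b₀ ⊆ c') (h2 : c' ⊆ c)
    (h4 : ∀ e, c' ⊆ e → e ⊆ c → f e = f c → e = c) : c \ c' ⊆ sn f b₀ c := by
  intro g hg
  obtain ⟨a1, a2⟩ := mem_sdiff.1 hg
  refine mem_filter.2 ⟨mem_sdiff.2 ⟨a1, fun h => a2 (h0 h)⟩, fun h => ?_⟩
  exact notMem_erase g c ((h4 _ (subset_erase.2 ⟨h2, a2⟩) (erase_subset _ _) h).symm ▸ a1)

theorem tight_peel {f : Finset Y → Bool} {b₀ b : Finset Y} (hb : b₀ ⊆ b) {σ j : ℕ} {c : Finset Y}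
    (h : Tight f b j c) (hσ : ∀ d, b ⊆ d → d ⊆ c → (sn f b₀ d).card ≤ σ) :
    Peel (sns f b₀ σ) ((c \ b).card + j) c c (c \ b).card 0 b := by
  induction j generalizing c with
  | zero =>
    obtain rfl : c = b := h
    simp [Peel]
  | succ j ih =>
    obtain ⟨c', h1, h2, -, h4⟩ := h
    have a1 := ih h1 fun d d1 d2 => hσ d d1 (d2.trans h2)
    have a2 := h1.alt.sub
    have a3 : Peel (sns f b₀ σ) ((c' \ b).card + j + 1) c (c \ (c \ c')) (c' \ b).card 0 b := by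
      rw [Finset.sdiff_sdiff_eq_self h2]
      exact Or.inr (Or.inr a1)
    have a4 := Peel.cheap (c \ c') (by
      rw [sns, if_pos (hσ c (a2.trans h2) Subset.rfl)]
      exact tight_sn (hb.trans a2) h2 h4) a3
    have e3 := card_sdiff_add_card_eq_card h2
    have e4 := card_sdiff_add_card_eq_card a2
    have e5 := card_sdiff_add_card_eq_card (a2.trans h2)
    rwa [show (c' \ b).card + j + 1 + (c \ c').card = (c \ b).card + (j + 1) by omega,
      show (c' \ b).card + (c \ c').card = (c \ b).card by omega] at a4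

theorem tight_vis {f : Finset Y → Bool} {b : Finset Y} {vis : Y → Prop}
    (hv : ∀ c g, b ⊆ c → g ∉ b → ¬vis g → f (c.erase g) = f c) {j : ℕ} {c : Finset Y}
    (h : Tight f b j c) : ∀ y ∈ c \ b, vis y := by
  induction j generalizing c with
  | zero =>
    obtain rfl : c = b := h
    simp
  | succ j ih =>
    obtain ⟨c', h1, h2, -, h4⟩ := h
    intro y hy
    obtain ⟨a1, a2⟩ := mem_sdiff.1 hy
    by_cases a3 : y ∈ c'
    · exact ih h1 y (mem_sdiff.2 ⟨a3, a2⟩)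
    · by_contra a4
      exact (mem_filter.1 (tight_sn h1.alt.sub h2 h4 (mem_sdiff.2 ⟨a1, a3⟩))).2
        (hv c y (h1.alt.sub.trans h2) a2 a4)

theorem cost_le {ν : Y → ℕ} {A B C : Finset Y} (h : A ⊆ B ∪ C) :
    ∑ y ∈ A, ν y ≤ ∑ y ∈ B, ν y + ∑ y ∈ C, ν y := by
  have := sum_union_inter (s₁ := B) (s₂ := C) (f := ν)
  have := sum_le_sum_of_subset (f := ν) h
  omega

omit [DecidableEq Y] in
theorem card_le_cost {ν : Y → ℕ} (hν : ∀ y, 1 ≤ ν y) (A : Finset Y) : A.card ≤ ∑ y ∈ A, ν y := by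
  simpa using card_nsmul_le_sum A ν 1 fun y _ => hν y

variable [DecidableEq ι] {acc : Acc Y Key} {ν : Y → ℕ}
  {Ds : ((Σ R, Key R) → Bool) → Finset (Σ R, Key R)} {w : ι → ℕ} {κ : ∀ R, Key R}
  {F : ((Σ R, Key R) → Bool) → Bool} {val : ((Σ R, Key R) → Bool) → ℕ}
  {X : ι → Finset Y → Finset Y} {b₀ : Finset Y}

omit [DecidableEq ι] in
theorem cost_cer {t : ℕ} (hD : ∀ A, (Ds A).card ≤ t) (hW : ∀ A, ∀ l ∈ Ds A, w l.1 ≤ t)
    (hX : ∀ R c, X R c ⊆ c ∧ ∑ y ∈ X R c, ν y ≤ w R) (c : Finset Y) :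
    ∑ y ∈ cer acc Ds κ X c, ν y ≤ t * t := by
  have h1 := sum_biUnion_le' (Ds (bits acc c κ)) (fun l => X l.1 c) (fun y => (ν y : ℝ))
    fun _ => Nat.cast_nonneg _
  have h2 : ∑ y ∈ cer acc Ds κ X c, ν y ≤ ∑ l ∈ Ds (bits acc c κ), ∑ y ∈ X l.1 c, ν y := by
    exact_mod_cast h1
  exact h2.trans ((sum_le_card_nsmul _ _ t fun l hl => (hX _ _).2.trans (hW _ l hl)).trans
    (Nat.mul_le_mul_right _ (hD _)))

omit [DecidableEq ι] in
theorem val_le (hM : Mono acc) (hP : Pot F val Ds)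
    (hX' : ∀ R c, b₀ ⊆ c → acc c κ R → acc (b₀ ∪ X R c) κ R) {c e : Finset Y} (h1 : b₀ ⊆ e)
    (h2 : cer acc Ds κ X c ⊆ e) (h3 : e ⊆ c) : val (bits acc c κ) ≤ val (bits acc e κ) ∧
      (val (bits acc e κ) = val (bits acc c κ) → F (bits acc e κ) = F (bits acc c κ)) :=
  hP _ _ fun l hl => Bool.eq_iff_iff.2 ⟨fun h =>
    bits_true.2 ⟨(bits_true.1 h).1, hM _ _ _ _ h3 (bits_true.1 h).2⟩, fun h =>
    bits_true.2 ⟨(bits_true.1 h).1, hM _ _ _ _ (union_subset h1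
      ((subset_biUnion_of_mem (fun l : Σ R, Key R => X l.1 c) hl).trans h2))
      (hX' _ _ (h1.trans h3) (bits_true.1 h).2)⟩⟩

theorem climb (hM : Mono acc) (hX : ∀ R c, X R c ⊆ c ∧ ∑ y ∈ X R c, ν y ≤ w R)
    (hX' : ∀ R c, b₀ ⊆ c → acc c κ R → acc (b₀ ∪ X R c) κ R) {c : Finset Y} {u : ℕ}
    {S : Finset ι} (hW : Wk acc Ds ν w κ c u S) (n : ℕ) (e : Finset Y) (hn : (c \ e).card < n)
    (h1 : b₀ ⊆ e) (h3 : e ⊆ c) (h4 : ∀ e', e ⊆ e' → e' ⊆ c → e' ≠ c →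
      ∃ l ∈ Ds (bits acc e' κ), bits acc c κ l ≠ bits acc e' κ l) :
    ∃ S', Wk acc Ds ν w κ e u S' ∧ ∑ R ∈ S, w R + ∑ y ∈ c \ e, ν y ≤ ∑ R ∈ S', w R := by
  induction n generalizing e with
  | zero => omega
  | succ n ih =>
    by_cases he : e = c
    · subst he
      exact ⟨S, hW, by simp⟩
    have a1 : ∀ l, bits acc e κ l = true → bits acc c κ l = true := fun l hl =>
      bits_true.2 ⟨(bits_true.1 hl).1, hM _ _ _ _ h3 (bits_true.1 hl).2⟩
    obtain ⟨l, a3, a4⟩ := h4 e Subset.rfl h3 he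
    have a5 : bits acc c κ l = true ∧ ¬bits acc e κ l = true := by
      have := a1 l
      cases h : bits acc c κ l <;> cases h' : bits acc e κ l <;> simp_all
    obtain ⟨a6, a7⟩ := bits_true.1 a5.1
    have a8 : ¬acc e κ l.1 := fun h => a5.2 (bits_true.2 ⟨a6, h⟩)
    have a9 : acc (e ∪ X l.1 c) κ l.1 :=
      hM _ _ _ _ (union_subset_union h1 Subset.rfl) (hX' _ _ (h1.trans h3) a7)
    have b1 : e ∪ X l.1 c ⊆ c := union_subset h3 (hX _ _).1
    have b2 := card_lt_card (Finset.ssubset_iff_subset_ne.2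
      ⟨subset_union_left (s₁ := e) (s₂ := X l.1 c), fun h => a8 (h ▸ a9)⟩)
    have b3 := card_sdiff_add_card_eq_card b1
    have b4 := card_sdiff_add_card_eq_card h3
    have b5 : ∑ y ∈ c \ e, ν y ≤ ∑ y ∈ X l.1 c, ν y + ∑ y ∈ c \ (e ∪ X l.1 c), ν y :=
      cost_le fun y => by
        simp only [mem_sdiff, mem_union]
        tauto
    have b6 := (hX l.1 c).2
    obtain ⟨S', c1, c2⟩ := ih (e ∪ X l.1 c) (by omega) (h1.trans subset_union_left) b1
      fun e' h => h4 e' (subset_union_left.trans h)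
    have c3 : l.1 ∉ S' := fun h => c1.off hM _ h a9
    refine ⟨insert l.1 S', .hit e _ l u S' a3 a6 a8 b6 c3 c1, ?_⟩
    rw [sum_insert c3]
    omega

theorem tight_walk (hM : Mono acc) (hP : Pot F val Ds)
    (hX : ∀ R c, X R c ⊆ c ∧ ∑ y ∈ X R c, ν y ≤ w R)
    (hX' : ∀ R c, b₀ ⊆ c → acc c κ R → acc (b₀ ∪ X R c) κ R) {E : ℕ}
    (hE : ∀ c, ∑ y ∈ cer acc Ds κ X c, ν y ≤ E) {b : Finset Y} (hb : b₀ ⊆ b) {j : ℕ}
    {c : Finset Y} (h : Tight (fun c => F (bits acc c κ)) b j c) (u₀ : ℕ) (S : Finset ι)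
    (hW : Wk acc Ds ν w κ c u₀ S) : ∃ u S', u ≤ u₀ + j * (E + 1) ∧ Wk acc Ds ν w κ b u S' ∧
      ∑ R ∈ S, w R + ∑ y ∈ c \ b, ν y ≤ j * E + ∑ R ∈ S', w R := by
  induction j generalizing c u₀ S with
  | zero =>
    obtain rfl : c = b := h
    exact ⟨u₀, S, by simp, hW, by simp⟩
  | succ j ih =>
    obtain ⟨c', h1, h2, -, h4⟩ := h
    have hc : cer acc Ds κ X c ⊆ c := biUnion_subset.2 fun l _ => (hX _ _).1
    have h5 := hb.trans h1.alt.sub
    obtain ⟨S₁, b1, b2⟩ := climb hM hX hX' hW _ (c' ∪ cer acc Ds κ X c) (Nat.lt_succ_self _)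
      (h5.trans subset_union_left) (union_subset h2 hc) fun e' e1 e2 e3 => by
        obtain ⟨e4, e5⟩ := union_subset_iff.1 e1
        have e6 := val_le hM hP hX' (h5.trans e4) e5 e2
        by_contra hc
        push Not at hc
        exact e3 (h4 e' e4 e2 (e6.2 (le_antisymm (hP _ _ hc).1 e6.1)))
    obtain ⟨u, S₂, b3, b4, b5⟩ := ih h1 _ _ (.add c' _ u₀ S₁ b1)
    have b6 := hE c
    have b7 : ∑ y ∈ c \ b, ν y ≤ ∑ y ∈ c' \ b, ν y + ∑ y ∈ c \ c', ν y :=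
      cost_le fun y => by
        simp only [mem_sdiff, mem_union]
        tauto
    have b8 : ∑ y ∈ c \ c', ν y ≤
        ∑ y ∈ cer acc Ds κ X c, ν y + ∑ y ∈ c \ (c' ∪ cer acc Ds κ X c), ν y :=
      cost_le fun y => by
        simp only [mem_sdiff, mem_union]
        tauto
    refine ⟨u, S₂, ?_, b4, ?_⟩ <;> rw [Nat.succ_mul] <;> omega

theorem card_sn (hM : Mono acc) (hP : Pot F val Ds) (hν : ∀ y, 1 ≤ ν y)
    (hX : ∀ R c, X R c ⊆ c ∧ ∑ y ∈ X R c, ν y ≤ w R)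
    (hX' : ∀ R c, b₀ ⊆ c → acc c κ R → acc (b₀ ∪ X R c) κ R) {E : ℕ}
    (hE : ∀ c, ∑ y ∈ cer acc Ds κ X c, ν y ≤ E) {c : Finset Y} (hc : b₀ ⊆ c) {r : ℕ}
    (hS : ∀ T S, Wk acc Ds ν w κ (c \ T) 0 S → 2 * ∑ R ∈ S, w R < r + ∑ y ∈ T, ν y) :
    (sn (fun c => F (bits acc c κ)) b₀ c).card ≤ E + r * (E + 1) := by
  by_contra hlt
  have hce : ∀ c, cer acc Ds κ X c ⊆ c := fun c => biUnion_subset.2 fun l _ => (hX _ _).1
  have hE' : ∀ c, (cer acc Ds κ X c).card ≤ E := fun c => (card_le_cost hν _).trans (hE c)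
  have h1 := le_card_sdiff (cer acc Ds κ X c) (sn (fun c => F (bits acc c κ)) b₀ c)
  have h2 := hE' c
  obtain ⟨T, a1, a2, a3⟩ := greedy (fun g => cer acc Ds κ X (c.erase g)) (fun g => hE' _)
    (fun g h => notMem_erase g c (hce _ h)) r
    (sn (fun c => F (bits acc c κ)) b₀ c \ cer acc Ds κ X c) (by omega)
  have a4 : ∀ g ∈ T, g ∈ c ∧ g ∉ b₀ := fun g hg =>
    mem_sdiff.1 (mem_filter.1 (mem_sdiff.1 (a1 hg)).1).1
  have a5 : b₀ ⊆ c \ T := subset_sdiff.2 ⟨hc, disjoint_right.2 fun g hg => (a4 g hg).2⟩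
  obtain ⟨S, b1, b2⟩ := climb hM hX hX' (.stop c) _ (c \ T) (Nat.lt_succ_self _) a5 sdiff_subset
    fun e e1 e2 e3 => by
      obtain ⟨g, g1, g2⟩ := a3 (c \ e) (fun y hy => by
        by_contra h
        exact (mem_sdiff.1 hy).2 (e1 (mem_sdiff.2 ⟨(mem_sdiff.1 hy).1, h⟩)))
        (sdiff_nonempty.2 fun h => e3 (Subset.antisymm e2 h))
      have g3 : g ∈ T := by
        by_contra h
        exact (mem_sdiff.1 g1).2 (e1 (mem_sdiff.2 ⟨(mem_sdiff.1 g1).1, h⟩))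
      have g4 := val_le hM hP hX' (c := c.erase g) (a5.trans e1) (fun y hy => by
        by_contra h
        exact disjoint_left.1 g2 (mem_sdiff.2 ⟨erase_subset _ _ (hce _ hy), h⟩) hy)
        (subset_erase.2 ⟨e2, (mem_sdiff.1 g1).2⟩)
      have g5 := val_le hM hP hX' (c := c) (subset_erase.2 ⟨hc, (a4 g g3).2⟩)
        (subset_erase.2 ⟨hce c, (mem_sdiff.1 (a1 g3)).2⟩) (erase_subset g c)
      by_contra hc
      push Not at hc
      have g6 := (hP _ _ hc).1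
      exact (mem_filter.1 (mem_sdiff.1 (a1 g3)).1).2 (g5.2 (by omega))
  have b3 := hS T S b1
  rw [sdiff_sdiff_eq_self fun g hg => (a4 g hg).1] at b2
  have b4 := card_le_cost hν T
  simp only [sum_empty] at b2
  omega

theorem good [Fintype Y] (hM : Mono acc) (hP : Pot F val Ds) (hν : ∀ y, 1 ≤ ν y)
    (hX : ∀ R c, X R c ⊆ c ∧ ∑ y ∈ X R c, ν y ≤ w R)
    (hX' : ∀ R c, b₀ ⊆ c → acc c κ R → acc (b₀ ∪ X R c) κ R) {t : ℕ} (ht : 1 ≤ t)
    (hE : ∀ c, ∑ y ∈ cer acc Ds κ X c, ν y ≤ t * t) {b : Finset Y} (hb : b₀ ⊆ b) {vis : Y → Prop}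
    (hv : ∀ c g, b ⊆ c → g ∉ b → ¬vis g → F (bits acc (c.erase g) κ) = F (bits acc c κ))
    (hA : ∀ u S, Wk acc Ds ν w κ b u S → 2 * ∑ R ∈ S, w R ≤ u + t)
    (hS : ∀ U T u S, Wk acc Ds ν w κ ((b ∪ U) \ T) u S →
      2 * ∑ R ∈ S, w R ≤ u + (t + 4 + ∑ y ∈ U, ν y + ∑ y ∈ T, ν y)) {σ m : ℕ}
    (hσ : 27 * t ^ 5 ≤ σ)
    (hB : ¬LongPeel (sns (fun c => F (bits acc c κ)) b₀ σ) m t (2 * t + 1) b) {c : Finset Y}
    (hc : b ⊆ c) : ∃ I < 2 * t + 1, F (bits acc c κ) = I.bodd ∧ ∀ j, (∃ d ⊆ c,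
      ∑ y ∈ d \ b, ν y ≤ sz t ∧ (∀ y ∈ d \ b, vis y) ∧
        Alt (fun c => F (bits acc c κ)) b j d) ↔ j ≤ I := by
  classical
  set f : Finset Y → Bool := fun c => F (bits acc c κ) with hf
  have htt : 1 ≤ t * t := Nat.mul_pos ht ht
  have key : ∀ j ≤ 2 * t + 1, ∀ d, Tight f b j d → ∑ y ∈ d \ b, ν y ≤ sz t := by
    intro j hj d h
    obtain ⟨u, S, a1, a2, a3⟩ := tight_walk hM hP hX hX' hE hb h 0 ∅ (.stop d)
    have a4 := hA u S a2
    have a5 := Nat.mul_le_mul_right (t * t) hj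
    have a6 := Nat.mul_le_mul_left j htt
    rw [sum_empty] at a3
    rw [mul_add] at a1
    unfold sz
    omega
  have h1 : ∀ d, ¬Alt f b (2 * t + 1) d := by
    intro d h
    obtain ⟨d', -, h'⟩ := h.tight
    have a1 := key _ le_rfl _ h'
    have a5 := h'.alt.len
    refine hB ⟨(d' \ b).card, 0, d', by omega, by omega, by omega, by omega, h'.alt.sub, le_rfl,
      tight_peel hb h' fun e e1 e2 => le_trans (card_sn (r := t + 5 + sz t) hM hP hν hX hX' hE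
        (hb.trans e1) fun T S hW => ?_) (le_trans ?_ hσ)⟩
    · have a2 := hS (e \ b) T 0 S (by rwa [union_sdiff_of_subset e1])
      have a3 := sum_le_sum_of_subset (f := ν) (sdiff_subset_sdiff e2 (Subset.rfl (s := b)))
      omega
    · have a2 : t ≤ t ^ 3 := Nat.le_self_pow (by norm_num) t
      have a3 : t * t ≤ t ^ 3 := by nlinarith
      have a4 : t + 5 + sz t ≤ 13 * t ^ 3 := by
        unfold sz
        nlinarith
      have a6 := Nat.mul_le_mul a4 (show t * t + 1 ≤ 2 * t ^ 2 by nlinarith)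
      have a7 : t ^ 2 ≤ t ^ 5 := Nat.pow_le_pow_right ht (by norm_num)
      nlinarith
  let Q : ℕ → Prop := fun j => ¬∃ d ⊆ c, Alt f b (j + 1) d
  have hQ : ∃ j, Q j := ⟨2 * t, fun ⟨d, _, h⟩ => h1 d h⟩
  have h2 : Nat.find hQ ≤ 2 * t := Nat.find_le fun ⟨d, _, h⟩ => h1 d h
  have h3 : ∀ j ≤ Nat.find hQ, ∃ d ⊆ c, Alt f b j d := by
    rintro (_ | j) hj
    · exact ⟨b, hc, rfl⟩
    · exact not_not.1 (Nat.find_min hQ (by omega))
  refine ⟨Nat.find hQ, by omega, ?_, fun j => ⟨fun ⟨d, a1, _, _, a2⟩ => ?_, fun hj => ?_⟩⟩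
  · obtain ⟨d, a1, a2⟩ := h3 _ le_rfl
    by_contra hne
    refine Nat.find_spec hQ ⟨c, Subset.rfl, d, a2, a1, ?_⟩
    rw [Nat.bodd_succ]
    exact Bool.eq_not_iff.2 hne
  · by_contra hj
    obtain ⟨d', a3, a4⟩ := a2.down (show Nat.find hQ + 1 ≤ j by omega)
    exact Nat.find_spec hQ ⟨d', a3.trans a1, a4⟩
  · obtain ⟨d, a1, a2⟩ := h3 j hj
    obtain ⟨d', a3, a4⟩ := a2.tight
    exact ⟨d', a3.trans a1, key j (by omega) _ a4, tight_vis hv a4, a4.alt⟩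

end Pool.Agent.MP_a2d820_lc.h9
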