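import Mathlib
import Pool.Agent.MP_a2d820_lc.h9.Sens

/-!
Monotone functions with small certificates become shallow trees when few variables stay free.
-/

set_option autoImplicit false

namespace Pool.Agent.MP_a2d820_lc.h9

open Finset Pool.Agent.MP_a2d820_lc.h69 Pool.Agent.MP_a2d820_lc.h22

variable {Y : Type} [DecidableEq Y]

/-- One can remove `s` free variables, each from the certificate of the current configuration. -/
def Dn (X : Finset Y → Finset Y) (A : Finset Y) : ℕ → Finset Y → Prop
  | 0, _ => True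
  | s + 1, c => ∃ y ∈ X c, y ∈ A ∧ y ∈ c ∧ Dn X A s (c.erase y)

theorem Dn.erase {X : Finset Y → Finset Y} {A : Finset Y} {s : ℕ} {c : Finset Y} {g : Y}
    (hg : g ∉ c) (h : Dn X A s c) : Dn X (A.erase g) s c := by
  induction s generalizing c with
  | zero => trivial
  | succ s ih =>
    obtain ⟨y, h1, h2, h3, h4⟩ := h
    exact ⟨y, h1, mem_erase.2 ⟨fun e => hg (e ▸ h3), h2⟩, h3,
      ih (fun h => hg (mem_of_mem_erase h)) h4⟩

open Classical in
theorem few_dn {X : Finset Y → Finset Y} {W : ℕ} (hX : ∀ c, (X c).card ≤ W) {x : ℝ} (hx : 0 ≤ x)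
    (s : ℕ) (V c : Finset Y) : ∑ A ∈ V.powerset.filter fun A => Dn X A s c, x ^ A.card ≤
      (W * x) ^ s * (1 + x) ^ V.card := by
  have hn : ∀ A : Finset Y, 0 ≤ x ^ A.card := fun A => by positivity
  induction s generalizing V c with
  | zero => simp [Dn, sum_pow_powerset]
  | succ s ih =>
    have h1 : (V.powerset.filter fun A => Dn X A (s + 1) c) ⊆ (X c ∩ V).biUnion fun y =>
        ((V.erase y).powerset.filter fun A => Dn X A s (c.erase y)).image (insert y) := by
      intro A hA
      obtain ⟨a0, y, a1, a2, -, a4⟩ := mem_filter.1 hA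
      exact mem_biUnion.2 ⟨y, mem_inter.2 ⟨a1, mem_powerset.1 a0 a2⟩, mem_image.2 ⟨A.erase y,
        mem_filter.2 ⟨mem_powerset.2 (erase_subset_erase _ (mem_powerset.1 a0)),
          a4.erase (notMem_erase _ _)⟩, insert_erase a2⟩⟩
    refine (sum_le_sum_of_subset_of_nonneg h1 fun A _ _ => hn A).trans
      ((sum_biUnion_le' _ _ _ hn).trans ((sum_le_card_nsmul _ _
        (x * ((W * x) ^ s * (1 + x) ^ V.card)) fun y hy => ?_).trans ?_))
    · refine (sum_image_le_of_nonneg fun A _ => hn A).trans (le_trans (sum_le_sum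
        (g := fun A => x * x ^ A.card) fun A hA => ?_) ?_)
      · rw [card_insert_of_notMem fun h =>
          notMem_erase y V (mem_powerset.1 (mem_filter.1 hA).1 h), pow_succ']
      · rw [← mul_sum]
        refine mul_le_mul_of_nonneg_left ((ih _ _).trans (mul_le_mul_of_nonneg_left
          (pow_le_pow_right₀ (by linarith) card_erase_le) (by positivity))) hx
    · rw [nsmul_eq_mul, pow_succ']
      refine (mul_le_mul_of_nonneg_right (Nat.cast_le.2
        ((card_le_card inter_subset_left).trans (hX c))) (by positivity)).trans (le_of_eq ?_)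
      ring

variable [Fintype Y]

theorem mem_cfg {V : Finset Y} {z : Y → Bool} {y : Y} : y ∈ cfg V z ↔ y ∉ V ∨ z y = true := by
  simp [cfg]

theorem compl_sub_cfg (V : Finset Y) (z : Y → Bool) : Vᶜ ⊆ cfg V z :=
  fun _ h => mem_cfg.2 (Or.inl (mem_compl.1 h))

theorem dt_cfg {V V' : Finset Y} (h : V' ⊆ V) {d : ℕ} {φ : Finset Y → Bool}
    (hφ : DT d fun z => φ (cfg V z)) : DT d fun z => φ (cfg V' z) := by
  refine (dt_res hφ V' fun _ => true).congr fun z => congrArg φ ?_
  ext y
  rw [mem_cfg, mem_cfg]
  by_cases hy : y ∈ V'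
  · simp [res_of_mem hy, hy, h hy]
  · simp [res_of_notMem hy, hy]

open Classical in
theorem dt_of_not_dn {φ : Finset Y → Prop} (hφ : ∀ c c', c ⊆ c' → φ c → φ c')
    {X : Finset Y → Finset Y} {W : ℕ} (hX : ∀ c, X c ⊆ c ∧ (X c).card ≤ W) {A : Finset Y}
    (hX' : ∀ c, Aᶜ ⊆ c → φ c → φ (Aᶜ ∪ X c)) (s : ℕ) (c : Finset Y) (hc : Aᶜ ⊆ c)
    (h : ¬Dn X A s c) : DT (s * W) fun z => decide (φ (c ∩ cfg A z)) := by
  induction s generalizing c with
  | zero => exact absurd trivial h
  | succ s ih =>
    by_cases h0 : φ c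
    swap
    · exact (DTq.const _ false).congr fun z =>
        (decide_eq_false fun h1 => h0 (hφ _ _ inter_subset_left h1)).symm
    refine (dt_query (d := s * W) (X c ∩ A) fun π => ?_).mono (by
      have := (card_le_card (inter_subset_left (s₂ := A))).trans (hX c).2
      rw [Nat.succ_mul]
      omega)
    by_cases h1 : ∀ y ∈ X c ∩ A, π y = true
    · refine (DTq.const _ true).congr fun z => (decide_eq_true (hφ _ _ (union_subset
        (subset_inter hc (compl_sub_cfg _ _)) fun y hy => mem_inter.2 ⟨(hX c).1 hy, mem_cfg.2 ?_⟩)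
        (hX' c hc h0))).symm
      by_cases h2 : y ∈ A
      · have h3 := mem_inter.2 ⟨hy, h2⟩
        exact Or.inr (by rw [piecewise_eq_of_mem _ _ _ h3, h1 y h3])
      · exact Or.inl h2
    · push Not at h1
      obtain ⟨y, h2, h3⟩ := h1
      obtain ⟨h4, h5⟩ := mem_inter.1 h2
      have h6 := ih (c.erase y) (subset_erase.2 ⟨hc, fun h => mem_compl.1 h h5⟩)
        fun h7 => h ⟨y, h4, h5, (hX c).1 h4, h7⟩
      refine (dt_res h6 (X c ∩ A)ᶜ π).congr fun z => ?_
      have e1 : res (X c ∩ A)ᶜ π z = (X c ∩ A).piecewise π z := piecewise_compl _ _ _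
      simp only [Function.comp, e1]
      congr 2
      ext y'
      simp only [mem_inter, mem_erase]
      refine and_congr_left fun h7 => and_iff_right ?_
      rintro rfl
      rw [mem_cfg, piecewise_eq_of_mem _ _ _ h2] at h7
      exact h7.elim (fun h => h h5) h3

/-- The parity of a height is read off from the comparisons with all smaller numbers. -/
theorem dt_height {V : Type} {d : ℕ} {g : ℕ → (V → Bool) → Bool} (I : (V → Bool) → ℕ) (n j : ℕ)
    (hg : ∀ i < j + n + 1, DT d (g i)) (h : ∀ z i, g i z = true ↔ i ≤ I z)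
    (hI : ∀ z, I z ≤ j + n) : DT (n * d) fun z => (max j (I z)).bodd := by
  induction n generalizing j with
  | zero => exact (DTq.const _ j.bodd).congr fun z => by rw [max_eq_left (show I z ≤ j from hI z)]
  | succ n ih =>
    have h1 := (hg (j + 1) (by omega)).cond (DTq.const (n * d) j.bodd)
      (ih (j + 1) (fun i hi => hg i (by omega)) fun z => by have := hI z; omega)
    rw [Nat.succ_mul]
    refine h1.congr fun z => ?_
    have h2 := h z (j + 1)
    cases h3 : g (j + 1) z
    · rw [h3] at h2
      simp only [Bool.false_eq_true, false_iff, not_le] at h2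
      rw [cond_false, max_eq_left (by omega)]
    · rw [h3] at h2
      simp only [true_iff] at h2
      rw [cond_true, max_eq_right h2, max_eq_right (by omega)]

end Pool.Agent.MP_a2d820_lc.h9
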