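import Mathlib
import Pool.Agent.MP_a2d820_lc.h9.Sw

/-!
Two sparsifications turn every gate into a shallow tree, for most keys.
-/

set_option autoImplicit false

namespace Pool.Agent.MP_a2d820_lc.h9

open Finset Pool.Agent.MP_a2d820_lc.h69 Pool.Agent.MP_a2d820_lc.h22

variable {Y Q ι : Type} {Key : ι → Type} [Fintype Y] [DecidableEq Y]

theorem sparsify {Ω : Type} [Fintype Ω] (V : Finset Y) {x : ℝ} (hx : 0 < x) {M : ℕ}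
    (hM : 2 * (Fintype.card Y : ℝ) ≤ (1 + x) ^ M) (K : Y → Finset Y)
    (hK : ∀ y, K y ⊆ V ∧ M ≤ (K y).card) (E : Ω → Finset (Finset Y)) {δ : ℝ}
    (hE : ∀ κ, ∑ A ∈ E κ, x ^ A.card ≤ δ * (1 + x) ^ V.card) :
    ∃ V' ⊆ V, (∀ y, ∃ y' ∈ V', y' ∈ K y) ∧ ∃ Bad : Finset Ω,
      (Bad.card : ℝ) ≤ 2 * δ * Fintype.card Ω ∧ ∀ κ ∉ Bad, V' ∉ E κ := by
  classical
  have hn : ∀ A : Finset Y, 0 < x ^ A.card := fun A => by positivity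
  obtain ⟨V', a1, a2⟩ := exists_avg V.powerset (V.powerset.filter fun A => ∃ y, Disjoint A (K y))
    (filter_subset _ _) hn (g := fun A => (#{κ | A ∈ E κ} : ℝ)) (fun A => Nat.cast_nonneg _)
    ⟨∅, empty_mem_powerset _⟩ (by rw [sum_pow_powerset]; exact few_miss hx.le hM V K hK)
    (δ := δ * Fintype.card Ω) (by
      have e1 : ∀ A, x ^ A.card * (#{κ | A ∈ E κ} : ℝ) =
          ∑ κ : Ω, if A ∈ E κ then x ^ A.card else 0 := fun A => by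
        rw [← sum_filter, sum_const, nsmul_eq_mul, mul_comm]
      rw [sum_congr rfl fun A _ => e1 A, sum_comm, sum_pow_powerset]
      refine (sum_le_card_nsmul _ _ (δ * (1 + x) ^ V.card) fun κ _ => ?_).trans (le_of_eq ?_)
      · rw [← sum_filter]
        exact (sum_le_sum_of_subset_of_nonneg (fun A hA => (mem_filter.1 hA).2)
          fun A _ _ => (hn A).le).trans (hE κ)
      · rw [nsmul_eq_mul, card_univ]
        ring)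
  obtain ⟨a3, a4⟩ := mem_sdiff.1 a1
  refine ⟨V', mem_powerset.1 a3, fun y => ?_, univ.filter fun κ => V' ∈ E κ, by linarith,
    fun κ hκ h => hκ (mem_filter.2 ⟨mem_univ _, h⟩)⟩
  by_contra hc
  push Not at hc
  exact a4 (mem_filter.2 ⟨a3, y, disjoint_left.2 hc⟩)

omit [Fintype Y] in
theorem sum_bi {α : Type} (T : Finset α) {x : ℝ} (hx : 0 ≤ x) (E : α → Finset (Finset Y))
    (δ : α → ℝ) {Z : ℝ} (h : ∀ q ∈ T, ∑ A ∈ E q, x ^ A.card ≤ δ q * Z) :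
    ∑ A ∈ T.biUnion E, x ^ A.card ≤ (∑ q ∈ T, δ q) * Z := by
  refine (sum_biUnion_le' _ _ _ fun A => by positivity).trans ?_
  rw [sum_mul]
  exact sum_le_sum h

theorem few_peels' {Ce : Finset Y → Finset Y} {E τ : ℕ} (p : ℕ) (hE : ∀ c, (Ce c).card ≤ E)
    {x : ℝ} (hx : 0 ≤ x) (hx1 : x ≤ 1) (hxE : 2 ^ 13 * E * x ≤ 1) (V : Finset Y) :
    ∃ S : Finset (Finset Y), (1 ≤ τ → ∑ A ∈ S, x ^ A.card ≤ (1 / 2) ^ τ * (1 + x) ^ V.card) ∧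
      ∀ A ⊆ V, LongPeel Ce (Fintype.card Y + 1) τ p Aᶜ → A ∈ S := by
  classical
  exact ⟨_, fun hτ => few_peels hE Nat.lt_two_pow_self hτ hx hx1 hxE V,
    fun A h1 h2 => mem_filter.2 ⟨mem_powerset.2 h1, h2⟩⟩

omit [Fintype Y] in
theorem few_dn' {X : Finset Y → Finset Y} {W : ℕ} (hX : ∀ c, (X c).card ≤ W) {x : ℝ} (hx : 0 ≤ x)
    (s : ℕ) (V c : Finset Y) : ∃ S : Finset (Finset Y),
      ∑ A ∈ S, x ^ A.card ≤ (W * x) ^ s * (1 + x) ^ V.card ∧ ∀ A ⊆ V, Dn X A s c → A ∈ S := by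
  classical
  exact ⟨_, few_dn hX hx s V c, fun A h1 h2 => mem_filter.2 ⟨mem_powerset.2 h1, h2⟩⟩

theorem sz_le {t : ℕ} (ht : 1 ≤ t) : sz t ≤ 7 * t ^ 3 := by
  have a2 : t ≤ t ^ 3 := Nat.le_self_pow (by norm_num) t
  have a3 : t * t ≤ t ^ 3 := by nlinarith
  unfold sz
  nlinarith

theorem few_dn_all {t D : ℕ} {x : ℝ} (hx : 0 ≤ x)
    (hxD : 2 ^ 18 * (D : ℝ) ^ 5 * x ≤ 1) {X : ℕ → Finset Y → Finset Y}
    (hX : ∀ j c, (X j c).card ≤ sz t) (V : Finset Y) : ∃ S : Finset (Finset Y),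
      (1 ≤ t ∧ t ≤ D → ∑ A ∈ S, x ^ A.card ≤ (1 / 2) ^ t * (1 + x) ^ V.card) ∧
      ∀ A ⊆ V, ∀ j < 2 * t + 1, Dn (X j) A (t + 1) univ → A ∈ S := by
  choose S s1 s2 using fun j => few_dn' (hX j) hx (t + 1) V univ
  refine ⟨(range (2 * t + 1)).biUnion S, fun ⟨ht, hD⟩ => (sum_bi _ hx _ _ fun j _ => s1 j).trans
    (mul_le_mul_of_nonneg_right ?_ (by positivity)),
    fun A h1 j h2 h3 => mem_biUnion.2 ⟨j, mem_range.2 h2, s2 j A h1 h3⟩⟩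
  have h1 : sz t ≤ 7 * D ^ 5 := (sz_le ht).trans (Nat.mul_le_mul_left _
    ((Nat.pow_le_pow_right ht (by norm_num)).trans (Nat.pow_le_pow_left hD 5)))
  have h2 : (sz t : ℝ) ≤ 7 * (D : ℝ) ^ 5 := by exact_mod_cast h1
  have h3 : (sz t : ℝ) * x ≤ 1 / 4 := by
    have := mul_le_mul_of_nonneg_right h2 hx
    have : (0 : ℝ) ≤ (D : ℝ) ^ 5 * x := by positivity
    nlinarith
  have h4 : ((2 * t + 1 : ℕ) : ℝ) ≤ 4 * 2 ^ t := by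
    have := Nat.lt_two_pow_self (n := t)
    exact_mod_cast (show 2 * t + 1 ≤ 4 * 2 ^ t by omega)
  rw [sum_const, card_range, nsmul_eq_mul]
  refine (mul_le_mul h4 (pow_le_pow_left₀ (by positivity) h3 _) (by positivity)
    (by positivity)).trans (le_of_eq ?_)
  rw [pow_succ, show (1 / 2 : ℝ) = 2 * (1 / 4) by norm_num, mul_pow]
  ring

variable [Fintype ι] [DecidableEq ι] [∀ R, Fintype (Key R)] [∀ R, DecidableEq (Key R)]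
  [∀ R, Nonempty (Key R)]

open Classical in
/-- One sparsification makes all alternating chains short and cheap. -/
theorem chains {acc : Acc Y Key} (hM : Mono acc) (hL : Loc acc) {V : Finset Y} {ν : Y → ℕ}
    {w : ι → ℕ} (hc : ∀ κ R c, Vᶜ ⊆ c → acc c κ R →
      ∃ X ⊆ c, ∑ y ∈ X, ν y ≤ w R ∧ acc (Vᶜ ∪ X) κ R)
    {F : Q → ((Σ R, Key R) → Bool) → Bool} {val : Q → ((Σ R, Key R) → Bool) → ℕ}
    {Ds : Q → ((Σ R, Key R) → Bool) → Finset (Σ R, Key R)} {t : Q → ℕ} {D M : ℕ} (T : Finset Q)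
    (hP : ∀ q ∈ T, Pot (F q) (val q) (Ds q)) (hD : ∀ q ∈ T, ∀ A, (Ds q A).card ≤ t q)
    (ht : ∀ q ∈ T, 1 ≤ t q ∧ t q ≤ D) (hν : ∀ y, 1 ≤ ν y) (hν' : ∑ y, (1 / 2 : ℝ) ^ ν y ≤ 1)
    {a : ι → ℝ} (ha : ∀ R, 0 ≤ a R) (ha1 : ∑ R, a R ≤ 1)
    (hkey : ∀ q ∈ T, ∀ A, ∀ l ∈ Ds q A, w l.1 ≤ t q ∧
      ((6 * D * 2 ^ (9 * w l.1) : ℕ) : ℝ) ≤ a l.1 * Fintype.card (Key l.1))
    {x : ℝ} (hx : 0 < x) (hxD : 2 ^ 18 * (D : ℝ) ^ 5 * x ≤ 1) (hD1 : 1 ≤ D)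
    (hM' : 2 * (Fintype.card Y : ℝ) ≤ (1 + x) ^ M) (K : Y → Finset Y)
    (hK : ∀ y, K y ⊆ V ∧ M ≤ (K y).card) {vis : Q → Y → Prop}
    (hv : ∀ q ∈ T, ∀ κ c g, Vᶜ ⊆ c.erase g → ¬vis q g →
      F q (bits acc (c.erase g) κ) = F q (bits acc c κ)) :
    ∃ V' ⊆ V, (∀ y, ∃ y' ∈ V', y' ∈ K y) ∧ ∃ Bad : Finset (∀ R, Key R),
      (Bad.card : ℝ) ≤ 4 * (∑ q ∈ T, (1 / 2) ^ t q) * Fintype.card (∀ R, Key R) ∧
      ∀ κ ∉ Bad, ∀ q ∈ T, ∀ c, V'ᶜ ⊆ c → ∃ I < 2 * t q + 1, F q (bits acc c κ) = I.bodd ∧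
        ∀ j, (∃ d ⊆ c, ∑ y ∈ d \ V'ᶜ, ν y ≤ sz (t q) ∧ (∀ y ∈ d \ V'ᶜ, vis q y) ∧
          Alt (fun c => F q (bits acc c κ)) V'ᶜ j d) ↔ j ≤ I := by
  have hX : ∀ (κ : ∀ R, Key R) (R : ι) (c : Finset Y), ∃ X : Finset Y,
      (X ⊆ c ∧ ∑ y ∈ X, ν y ≤ w R) ∧ (Vᶜ ⊆ c → acc c κ R → acc (Vᶜ ∪ X) κ R) := by
    intro κ R c
    by_cases h : Vᶜ ⊆ c ∧ acc c κ R
    · obtain ⟨X, a1, a2, a3⟩ := hc κ R c h.1 h.2
      exact ⟨X, ⟨a1, a2⟩, fun _ _ => a3⟩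
    · exact ⟨∅, ⟨empty_subset _, by simp⟩, fun a b => absurd ⟨a, b⟩ h⟩
  choose X hX hX' using hX
  set Kc : ℝ := (Fintype.card (∀ R, Key R) : ℝ) with hKc
  set δ : ℝ := ∑ q ∈ T, (1 / 2) ^ t q with hδ
  have hD5 : (1 : ℝ) ≤ (D : ℝ) ^ 5 := one_le_pow₀ (by exact_mod_cast hD1)
  choose S s1 s2 using fun (κ : ∀ R, Key R) q => few_peels' (τ := t q) (2 * t q + 1)
    (card_sns (fun c => F q (bits acc c κ)) Vᶜ (27 * D ^ 5)) hx.le (by nlinarith)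
    (by push_cast; nlinarith [mul_nonneg (zero_le_one.trans hD5) hx.le]) V
  obtain ⟨V', a1, a2, B₀, a3, a4⟩ := sparsify V hx hM' K hK (fun κ => T.biUnion (S κ)) (δ := δ)
    fun κ => sum_bi T hx.le _ _ fun q hq => s1 κ q (ht q hq).1
  let H : Q → Finset Y → ℕ → Finset (∀ R, Key R) := fun q e τ =>
    {κ | ∃ u S, Wk acc (Ds q) ν w κ e u S ∧ u + τ < 2 * ∑ R ∈ S, w R}
  have hH : ∀ q ∈ T, ∀ e τ, ((H q e τ).card : ℝ) ≤ (1 / 2) ^ τ * Kc := fun q hq e τ =>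
    few_hits hM hL (fun A => (hD q hq A).trans (ht q hq).2) hν' ha ha1
      (fun A l hl => (hkey q hq A l hl).2) e τ
  let BS : Q → Finset (∀ R, Key R) := fun q => univ.biUnion fun U : Finset Y =>
    univ.biUnion fun T' : Finset Y =>
      H q ((V'ᶜ ∪ U) \ T') (t q + 4 + ∑ y ∈ U, ν y + ∑ y ∈ T', ν y)
  have hK0 : 0 ≤ Kc := Nat.cast_nonneg _
  have hBS : ∀ q ∈ T, ((BS q).card : ℝ) ≤ (1 / 2) ^ t q * Kc := by
    intro q hq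
    have k := kraft hν'
    have k0 : (0 : ℝ) ≤ ∑ X : Finset Y, (1 / 2 : ℝ) ^ (∑ y ∈ X, ν y) :=
      sum_nonneg fun _ _ => by positivity
    refine (card_biUnion_real _ _).trans ((sum_le_sum fun U _ => (card_biUnion_real _ _).trans
      (sum_le_sum fun T' _ => hH q hq _ _)).trans ?_)
    simp only [pow_add _ _ (∑ y ∈ _, ν y), ← sum_mul, ← mul_sum]
    refine mul_le_mul_of_nonneg_right ?_ hK0
    have k1 : (0 : ℝ) ≤ (1 / 2) ^ t q := by positivity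
    rw [pow_add, mul_assoc, mul_assoc]
    refine mul_le_of_le_one_right k1 ?_
    nlinarith
  refine ⟨V', a1, a2, B₀ ∪ (T.biUnion (fun q => H q V'ᶜ (t q)) ∪ T.biUnion BS),
    (Nat.cast_le.2 ((card_union_le _ _).trans (Nat.add_le_add_left (card_union_le _ _) _))).trans
      (by
        have b1 := (card_biUnion_real T _).trans (sum_le_sum fun q hq => hH q hq V'ᶜ (t q))
        have b2 := (card_biUnion_real T _).trans (sum_le_sum hBS)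
        rw [← sum_mul] at b1 b2
        push_cast
        exact (add_le_add a3 (add_le_add b1 b2)).trans (le_of_eq (by ring))),
    fun κ hκ q hq c h => ?_⟩
  have b0 : Vᶜ ⊆ V'ᶜ := compl_subset_compl.2 a1
  refine good hM (hP q hq) hν (hX κ) (hX' κ) (ht q hq).1
    (cost_cer (hD q hq) (fun A l hl => (hkey q hq A l hl).1) (hX κ)) b0
    (fun c g c1 c2 => hv q hq κ c g (b0.trans (subset_erase.2 ⟨c1, c2⟩))) (fun u S b1 => ?_)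
    (fun U T' u S b1 => ?_) (σ := 27 * D ^ 5) (m := Fintype.card Y + 1)
    (Nat.mul_le_mul_left _ (Nat.pow_le_pow_left (ht q hq).2 5)) (fun b1 => ?_) h
  · by_contra b3
    exact hκ (mem_union_right _ (mem_union_left _ (mem_biUnion.2 ⟨q, hq,
      mem_filter.2 ⟨mem_univ _, u, S, b1, by omega⟩⟩)))
  · by_contra b3
    exact hκ (mem_union_right _ (mem_union_right _ (mem_biUnion.2 ⟨q, hq, mem_biUnion.2
      ⟨U, mem_univ _, mem_biUnion.2 ⟨T', mem_univ _,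
        mem_filter.2 ⟨mem_univ _, u, S, b1, by omega⟩⟩⟩⟩)))
  · exact a4 κ (fun h => hκ (mem_union_left _ h)) (mem_biUnion.2 ⟨q, hq, s2 κ q V' a1 b1⟩)

/-- One sparsification turns monotone functions with small certificates into shallow trees. -/
theorem trees {Ω : Type} [Fintype Ω] {V : Finset Y} {t : Q → ℕ} {D M : ℕ} (T : Finset Q)
    (ht : ∀ q ∈ T, 1 ≤ t q ∧ t q ≤ D) {cd : Ω → Q → ℕ → Finset Y → Prop}
    (hm : ∀ κ q j c c', c ⊆ c' → cd κ q j c → cd κ q j c')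
    (hc : ∀ κ, ∀ q ∈ T, ∀ j c, Vᶜ ⊆ c → cd κ q j c →
      ∃ X ⊆ c, X.card ≤ sz (t q) ∧ cd κ q j (Vᶜ ∪ X))
    {x : ℝ} (hx : 0 < x) (hxD : 2 ^ 18 * (D : ℝ) ^ 5 * x ≤ 1)
    (hM' : 2 * (Fintype.card Y : ℝ) ≤ (1 + x) ^ M) (K : Y → Finset Y)
    (hK : ∀ y, K y ⊆ V ∧ M ≤ (K y).card) :
    ∃ V' ⊆ V, (∀ y, ∃ y' ∈ V', y' ∈ K y) ∧ ∃ Bad : Finset Ω,
      (Bad.card : ℝ) ≤ 2 * (∑ q ∈ T, (1 / 2) ^ t q) * Fintype.card Ω ∧
      ∀ κ ∉ Bad, ∀ q ∈ T, ∀ j < 2 * t q + 1, ∃ g : (Y → Bool) → Bool,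
        DT ((t q + 1) * sz (t q)) g ∧ ∀ z, g z = true ↔ cd κ q j (cfg V' z) := by
  classical
  have hX : ∀ κ q j (c : Finset Y), ∃ X : Finset Y, (X ⊆ c ∧ X.card ≤ sz (t q)) ∧
      (q ∈ T → Vᶜ ⊆ c → cd κ q j c → cd κ q j (Vᶜ ∪ X)) := by
    intro κ q j c
    by_cases h : q ∈ T ∧ Vᶜ ⊆ c ∧ cd κ q j c
    · obtain ⟨X, a1, a2, a3⟩ := hc κ q h.1 j c h.2.1 h.2.2
      exact ⟨X, ⟨a1, a2⟩, fun _ _ _ => a3⟩
    · exact ⟨∅, ⟨empty_subset _, by simp⟩, fun a b c => absurd ⟨a, b, c⟩ h⟩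
  choose X hX hX' using hX
  choose S s1 s2 using fun κ q => few_dn_all hx.le hxD (fun j c => (hX κ q j c).2) V
  obtain ⟨V', a1, a2, B₀, a3, a4⟩ := sparsify V hx hM' K hK (fun κ => T.biUnion (S κ))
    fun κ => sum_bi T hx.le _ _ fun q hq => s1 κ q (ht q hq)
  have b0 : Vᶜ ⊆ V'ᶜ := compl_subset_compl.2 a1
  refine ⟨V', a1, a2, B₀, a3, fun κ hκ q hq j hj => ⟨_, dt_of_not_dn (hm κ q j) (hX κ q j)
    (fun c c1 c2 => hm κ q j _ _ (union_subset_union b0 Subset.rfl)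
      (hX' κ q j c hq (b0.trans c1) c2)) (t q + 1) univ (subset_univ _) fun h =>
      a4 κ hκ (mem_biUnion.2 ⟨q, hq, s2 κ q V' a1 j hj h⟩), fun z => ?_⟩⟩
  rw [univ_inter]
  exact decide_eq_true_iff

theorem depth_le {t : ℕ} (ht : 1 ≤ t) : 2 * t * ((t + 1) * sz t) ≤ dp t := by
  have := Nat.mul_le_mul (show t + 1 ≤ 2 * t by omega) (sz_le ht)
  unfold dp
  nlinarith [Nat.zero_le (t ^ 5)]

open Classical in
/-- Gate conversion. -/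
theorem conv {acc : Acc Y Key} (hM : Mono acc) (hL : Loc acc) {V : Finset Y} {ν : Y → ℕ}
    {w : ι → ℕ} (hc : ∀ κ R c, Vᶜ ⊆ c → acc c κ R →
      ∃ X ⊆ c, ∑ y ∈ X, ν y ≤ w R ∧ acc (Vᶜ ∪ X) κ R)
    {F : Q → ((Σ R, Key R) → Bool) → Bool} {val : Q → ((Σ R, Key R) → Bool) → ℕ}
    {Ds : Q → ((Σ R, Key R) → Bool) → Finset (Σ R, Key R)} {t : Q → ℕ} {D M : ℕ} (T : Finset Q)
    (hP : ∀ q ∈ T, Pot (F q) (val q) (Ds q)) (hD : ∀ q ∈ T, ∀ A, (Ds q A).card ≤ t q)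
    (ht : ∀ q ∈ T, 1 ≤ t q ∧ t q ≤ D) (hν : ∀ y, 1 ≤ ν y) (hν' : ∑ y, (1 / 2 : ℝ) ^ ν y ≤ 1)
    {a : ι → ℝ} (ha : ∀ R, 0 ≤ a R) (ha1 : ∑ R, a R ≤ 1)
    (hkey : ∀ q ∈ T, ∀ A, ∀ l ∈ Ds q A, w l.1 ≤ t q ∧
      ((6 * D * 2 ^ (9 * w l.1) : ℕ) : ℝ) ≤ a l.1 * Fintype.card (Key l.1))
    {x : ℝ} (hx : 0 < x) (hxD : 2 ^ 18 * (D : ℝ) ^ 5 * x ≤ 1) (hD1 : 1 ≤ D)
    (hM' : 2 * (Fintype.card Y : ℝ) ≤ (1 + x) ^ M) {N₁ N₂ : Y → Y → Prop}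
    (h1 : ∀ y, ∃ K ⊆ V, M ≤ K.card ∧ ∀ y' ∈ K, N₁ y y')
    (h2 : ∀ V' ⊆ V, (∀ y, ∃ y' ∈ V', N₁ y y') → ∀ y, ∃ K ⊆ V', M ≤ K.card ∧ ∀ y' ∈ K, N₂ y y') :
    ∃ V' ⊆ V, (∀ y, ∃ y' ∈ V', N₂ y y') ∧ ∃ Bad : Finset (∀ R, Key R),
      (Bad.card : ℝ) ≤ 6 * (∑ q ∈ T, (1 / 2) ^ t q) * Fintype.card (∀ R, Key R) ∧
      ∀ κ ∉ Bad, ∀ q ∈ T, DT (dp (t q)) fun z => F q (bits acc (cfg V' z) κ) := by
  choose K k1 k2 k3 using h1
  obtain ⟨V₁, a1, a2, B₁, a3, a4⟩ := chains hM hL hc T hP hD ht hν hν' ha ha1 hkey hx hxD hD1 hM' K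
    (fun y => ⟨k1 y, k2 y⟩) (vis := fun _ _ => True) fun _ _ _ _ _ _ h => absurd trivial h
  choose K' k4 k5 k6 using h2 V₁ a1 fun y => (a2 y).imp fun y' h => ⟨h.1, k3 y y' h.2⟩
  obtain ⟨V₂, b1, b2, B₂, b3, b4⟩ := trees T ht (V := V₁) (cd := fun κ q j c => ∃ d ⊆ c,
    ∑ y ∈ d \ V₁ᶜ, ν y ≤ sz (t q) ∧ (∀ y ∈ d \ V₁ᶜ, True) ∧
      Alt (fun c => F q (bits acc c κ)) V₁ᶜ j d)
    (fun _ _ _ _ _ h ⟨d, d1, d2⟩ => ⟨d, d1.trans h, d2⟩)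
    (fun κ q _ j c _ ⟨d, d1, d2, d3⟩ => ⟨d \ V₁ᶜ, sdiff_subset.trans d1,
      (card_le_cost hν _).trans d2, d, by
        rw [union_sdiff_self_eq_union]
        exact subset_union_right, d2, d3⟩) hx hxD hM' K' fun y => ⟨k4 y, k5 y⟩
  refine ⟨V₂, b1.trans a1, fun y => (b2 y).imp fun y' h => ⟨h.1, k6 y y' h.2⟩, B₁ ∪ B₂,
    (Nat.cast_le.2 (card_union_le _ _)).trans (by push_cast; linarith), fun κ hκ q hq => ?_⟩
  choose I i1 i2 i3 using fun z => a4 κ (fun h => hκ (mem_union_left _ h)) q hq (cfg V₂ z)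
    ((compl_subset_compl.2 b1).trans (compl_sub_cfg _ _))
  choose! g g1 g2 using b4 κ (fun h => hκ (mem_union_right _ h)) q hq
  let g' : ℕ → (Y → Bool) → Bool := fun i => if i < 2 * t q + 1 then g i else fun _ => false
  refine ((dt_height (g := g') I (2 * t q) 0 (fun i hi => ?_) (fun z i => ?_) fun z => by
      have := i1 z
      omega).mono (depth_le (ht q hq).1)).congr fun z => by rw [i2, Nat.zero_max]
  · simp only [g', if_pos (show i < 2 * t q + 1 by omega)]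
    exact g1 i (by omega)
  · by_cases hi : i < 2 * t q + 1
    · simp only [g', if_pos hi]
      exact (g2 i hi z).trans (i3 z i)
    · simp only [g', if_neg hi]
      have := i1 z
      exact iff_of_false (by simp) (by omega)

end Pool.Agent.MP_a2d820_lc.h9
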