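import Mathlib
import Pool.Agent.MP_a2d820_lc.h9.Conv

/-!
Chains that alternate between two disjoint properties with small certificates; potentials of gates.
-/

set_option autoImplicit false

namespace Pool.Agent.MP_a2d820_lc.h9

open Finset Pool.Agent.MP_a2d820_lc.h69 Pool.Agent.MP_a2d820_lc.h22

/-- A function whose true inputs have small certificates has a potential. -/
theorem pot_of_cert {P : Type} {φ : (P → Bool) → Bool} {t : ℕ} {G : P → Prop}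
    (h : ∀ A, φ A = true → ∃ D : Finset P, D.card ≤ t ∧ (∀ l ∈ D, G l) ∧
      ∀ A', (∀ l ∈ D, A' l = A l) → φ A' = true) :
    ∃ val Ds, Pot φ val Ds ∧ ∀ A, (Ds A).card ≤ t ∧ ∀ l ∈ Ds A, G l := by
  have h1 : ∀ A, ∃ D : Finset P, (D.card ≤ t ∧ ∀ l ∈ D, G l) ∧
      (φ A = true → ∀ A', (∀ l ∈ D, A' l = A l) → φ A' = true) := by
    intro A
    by_cases h2 : φ A = true
    · obtain ⟨D, a1, a2, a3⟩ := h A h2
      exact ⟨D, ⟨a1, a2⟩, fun _ => a3⟩
    · exact ⟨∅, ⟨by simp, by simp⟩, fun h3 => absurd h3 h2⟩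
  choose Ds d1 d2 using h1
  refine ⟨fun A => (φ A).toNat, Ds, fun A A' e => ?_, d1⟩
  have := fun h => d2 A h A' e
  cases h3 : φ A <;> cases h4 : φ A' <;> simp_all

variable {Y : Type}

/-- A chain of length `j` from `b` to `c` that alternates between two properties. -/
def Alt2 (P : Bool → Finset Y → Prop) (b : Finset Y) : ℕ → Finset Y → Prop
  | 0, c => c = b
  | j + 1, c => ∃ c', Alt2 P b j c' ∧ c' ⊆ c ∧ P (j + 1).bodd c

section
variable {P P' : Bool → Finset Y → Prop} {b : Finset Y}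

theorem Alt2.sub {j : ℕ} {c : Finset Y} (h : Alt2 P b j c) : b ⊆ c := by
  induction j generalizing c with
  | zero => exact (show c = b from h) ▸ Subset.rfl
  | succ j ih =>
    obtain ⟨c', h1, h2, -⟩ := h
    exact (ih h1).trans h2

theorem Alt2.congr {j : ℕ} {c : Finset Y} (h : Alt2 P b j c)
    (e : ∀ β d, b ⊆ d → d ⊆ c → P β d → P' β d) : Alt2 P' b j c := by
  induction j generalizing c with
  | zero => exact h
  | succ j ih =>
    obtain ⟨c', h1, h2, h3⟩ := h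
    exact ⟨c', ih h1 fun β d h0 hd => e β d h0 (hd.trans h2), h2,
      e _ c (h1.sub.trans h2) Subset.rfl h3⟩

theorem Alt2.down {i j : ℕ} {c : Finset Y} (h : Alt2 P b j c) (hi : i ≤ j) :
    ∃ d ⊆ c, Alt2 P b i d := by
  induction j generalizing c with
  | zero =>
    obtain rfl : i = 0 := by omega
    exact ⟨c, Subset.rfl, h⟩
  | succ j ih =>
    rcases hi.lt_or_eq with hi | rfl
    · obtain ⟨c', h1, h2, -⟩ := h
      obtain ⟨d, h3, h4⟩ := ih h1 (by omega)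
      exact ⟨d, h3.trans h2, h4⟩
    · exact ⟨c, Subset.rfl, h⟩

variable [DecidableEq Y]

theorem Alt2.len (hd : ∀ c, b ⊆ c → ¬(P false c ∧ P true c)) {j : ℕ} {c : Finset Y}
    (h : Alt2 P b j c) : j ≤ (c \ b).card + 1 := by
  induction j generalizing c with
  | zero => omega
  | succ j ih =>
    obtain ⟨c', h1, h2, h3⟩ := h
    rcases j with _ | j
    · omega
    have h4 := ih h1
    have h5 : c' ≠ c := by
      rintro rfl
      have h7 := h1.sub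
      obtain ⟨-, -, -, h6⟩ := h1
      rw [Nat.bodd_succ (j + 1)] at h3
      cases h8 : (j + 1).bodd <;> rw [h8] at h3 h6
      · exact hd _ h7 ⟨h6, h3⟩
      · exact hd _ h7 ⟨h3, h6⟩
    have h6 := card_lt_card (Finset.ssubset_iff_subset_ne.2 ⟨h2, h5⟩)
    have h7 := card_sdiff_add_card_eq_card h1.sub
    have h8 := card_sdiff_add_card_eq_card (h1.sub.trans h2)
    omega

theorem Alt2.small {X : Bool → Finset Y → Finset Y} {s : ℕ} {vis : Y → Prop}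
    (hX : ∀ β c, (X β c).card ≤ s ∧ ∀ y ∈ X β c, vis y)
    (hX' : ∀ β c c', b ⊆ c' → c' ⊆ c → P β c → X β c ∩ c ⊆ c' → P β c') {j : ℕ} {c : Finset Y}
    (h : Alt2 P b j c) : ∃ d ⊆ c, Alt2 P b j d ∧ (d \ b).card ≤ j * s ∧ (∀ y ∈ d \ b, vis y) ∧
      Peel (fun c => X false c ∪ X true c) ((d \ b).card + j) d d (d \ b).card 0 b := by
  classical
  induction j generalizing c with
  | zero =>
    obtain rfl : c = b := h
    exact ⟨c, Subset.rfl, rfl, by simp, by simp, by simp [Peel]⟩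
  | succ j ih =>
    obtain ⟨c', h1, h2, h3⟩ := h
    obtain ⟨d', h4, h5, a1, a2, a3⟩ := ih h1
    obtain ⟨d, h6, h7⟩ := exists_min_image
      (c.powerset.filter fun e => d' ⊆ e ∧ P (j + 1).bodd e) card
      ⟨c, mem_filter.2 ⟨mem_powerset_self _, h4.trans h2, h3⟩⟩
    obtain ⟨h8, h9, h10⟩ := mem_filter.1 h6
    have b0 := h5.sub
    have b1 : d' ∪ X (j + 1).bodd d ∩ d ⊆ d := union_subset h9 inter_subset_right
    have b2 := eq_of_subset_of_card_le b1 (h7 _ (mem_filter.2 ⟨mem_powerset.2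
      (b1.trans (mem_powerset.1 h8)), subset_union_left,
      hX' _ d _ (b0.trans subset_union_left) b1 h10 subset_union_right⟩))
    have b3 : d \ d' ⊆ X (j + 1).bodd d := fun y hy => by
      obtain ⟨c1, c2⟩ := mem_sdiff.1 hy
      rw [← b2] at c1
      exact (mem_inter.1 ((mem_union.1 c1).resolve_left c2)).1
    have b4 := (card_le_card b3).trans (hX _ _).1
    have e3 := card_sdiff_add_card_eq_card h9
    have e4 := card_sdiff_add_card_eq_card b0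
    have e5 := card_sdiff_add_card_eq_card (b0.trans h9)
    refine ⟨d, mem_powerset.1 h8, ⟨d', h5, h9, h10⟩, by rw [Nat.succ_mul]; omega,
      fun y hy => ?_, ?_⟩
    · by_cases c1 : y ∈ d'
      · exact a2 y (mem_sdiff.2 ⟨c1, (mem_sdiff.1 hy).2⟩)
      · exact (hX _ _).2 y (b3 (mem_sdiff.2 ⟨(mem_sdiff.1 hy).1, c1⟩))
    · have c1 : Peel (fun c => X false c ∪ X true c) ((d' \ b).card + j + 1) d (d \ (d \ d'))
          (d' \ b).card 0 b := by
        rw [Finset.sdiff_sdiff_eq_self h9]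
        exact Or.inr (Or.inr a3)
      have c2 := Peel.cheap (d \ d') (b3.trans (by
        cases (j + 1).bodd
        exacts [subset_union_left, subset_union_right])) c1
      rwa [show (d' \ b).card + j + 1 + (d \ d').card = (d \ b).card + (j + 1) by omega,
        show (d' \ b).card + (d \ d').card = (d \ b).card by omega] at c2

end

variable [Fintype Y] [DecidableEq Y]

/-- One sparsification makes the chains between disjoint certified properties short. -/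
theorem chains2 {Ω Q : Type} [Fintype Ω] (T : Finset Q) (P : Ω → Q → Bool → Finset Y → Prop)
    (G : Ω → Prop) {V : Finset Y} {t s : Q → ℕ} {S M : ℕ} {vis : Q → Y → Prop}
    (hc : ∀ κ, G κ → ∀ q ∈ T, ∀ β c, Vᶜ ⊆ c → P κ q β c → ∃ X : Finset Y, X.card ≤ s q ∧
      (∀ y ∈ X, vis q y) ∧ ∀ c', Vᶜ ⊆ c' → (∀ y ∈ X, y ∈ c' ↔ y ∈ c) → P κ q β c')
    (hd : ∀ κ, G κ → ∀ q ∈ T, ∀ c, Vᶜ ⊆ c → ¬(P κ q false c ∧ P κ q true c))
    (ht : ∀ q ∈ T, 1 ≤ t q ∧ s q ≤ S) {x : ℝ} (hx : 0 < x) (hx1 : x ≤ 1)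
    (hxS : 2 ^ 14 * (S : ℝ) * x ≤ 1) (hM : 2 * (Fintype.card Y : ℝ) ≤ (1 + x) ^ M)
    (K : Y → Finset Y) (hK : ∀ y, K y ⊆ V ∧ M ≤ (K y).card) :
    ∃ V' ⊆ V, (∀ y, ∃ y' ∈ V', y' ∈ K y) ∧ ∃ Bad : Finset Ω,
      (Bad.card : ℝ) ≤ 2 * (∑ q ∈ T, (1 / 2) ^ t q) * Fintype.card Ω ∧
      ∀ κ ∉ Bad, G κ → ∀ q ∈ T, ∀ c, V'ᶜ ⊆ c → ∃ I < 2 * t q + 1,
        (∀ β, P κ q β c → I.bodd = β) ∧
        ∀ j, (∃ d ⊆ c, (d \ V'ᶜ).card ≤ (2 * t q + 1) * s q ∧ (∀ y ∈ d \ V'ᶜ, vis q y) ∧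
          Alt2 (P κ q) V'ᶜ j d) ↔ j ≤ I := by
  classical
  have hX : ∀ κ q β (c : Finset Y), ∃ X : Finset Y,
      ((X.card ≤ s q ∧ ∀ y ∈ X, vis q y) ∧ X.card ≤ S) ∧ (G κ → q ∈ T → Vᶜ ⊆ c → P κ q β c →
        ∀ c', Vᶜ ⊆ c' → (∀ y ∈ X, y ∈ c' ↔ y ∈ c) → P κ q β c') := by
    intro κ q β c
    by_cases h : G κ ∧ q ∈ T ∧ Vᶜ ⊆ c ∧ P κ q β c
    · obtain ⟨X, a1, a2, a3⟩ := hc κ h.1 q h.2.1 β c h.2.2.1 h.2.2.2
      exact ⟨X, ⟨⟨a1, a2⟩, a1.trans (ht q h.2.1).2⟩, fun _ _ _ _ => a3⟩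
    · exact ⟨∅, ⟨⟨by simp, by simp⟩, by simp⟩, fun a b c d => absurd ⟨a, b, c, d⟩ h⟩
  choose X hX hX' using hX
  choose E s1 s2 using fun κ q => few_peels' (τ := t q) (E := S + S)
    (Ce := fun c => X κ q false c ∪ X κ q true c) (2 * t q + 1)
    (fun c => (card_union_le _ _).trans (Nat.add_le_add (hX _ _ _ _).2 (hX _ _ _ _).2)) hx.le hx1
    (by push_cast; linarith) V
  obtain ⟨V', a1, a2, B₀, a3, a4⟩ := sparsify V hx hM K hK (fun κ => T.biUnion (E κ))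
    fun κ => sum_bi T hx.le _ _ fun q hq => s1 κ q (ht q hq).1
  refine ⟨V', a1, a2, B₀, a3, fun κ hκ hG q hq c hc => ?_⟩
  have b0 : Vᶜ ⊆ V'ᶜ := compl_subset_compl.2 a1
  have key := fun j d => Alt2.small (P := P κ q) (b := V'ᶜ) (j := j) (c := d)
    (fun β c => (hX κ q β c).1) fun β c c' e1 e2 e3 e4 =>
      hX' κ q β c hG hq (b0.trans (e1.trans e2)) e3 c' (b0.trans e1) fun y hy =>
        ⟨fun h => e2 h, fun h => e4 (mem_inter.2 ⟨hy, h⟩)⟩
  have ht1 := (ht q hq).1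
  have h1 : ∀ d, ¬Alt2 (P κ q) V'ᶜ (2 * t q + 1) d := by
    intro d h
    obtain ⟨d', -, c1, -, -, c2⟩ := key _ _ h
    have c3 := c1.len fun c h => hd κ hG q hq c (b0.trans h)
    exact a4 κ hκ (mem_biUnion.2 ⟨q, hq, s2 κ q V' a1 ⟨_, 0, d', by omega, by omega, by omega,
      by omega, c1.sub, le_rfl, c2⟩⟩)
  let N : ℕ → Prop := fun j => ¬∃ d ⊆ c, Alt2 (P κ q) V'ᶜ (j + 1) d
  have hQ : ∃ j, N j := ⟨2 * t q, fun ⟨d, _, h⟩ => h1 d h⟩
  have h2 : Nat.find hQ ≤ 2 * t q := Nat.find_le fun ⟨d, _, h⟩ => h1 d h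
  have h3 : ∀ j ≤ Nat.find hQ, ∃ d ⊆ c, Alt2 (P κ q) V'ᶜ j d := by
    rintro (_ | j) hj
    · exact ⟨_, hc, rfl⟩
    · exact not_not.1 (Nat.find_min hQ (by omega))
  refine ⟨Nat.find hQ, by omega, fun β hβ => ?_,
    fun j => ⟨fun ⟨d, a1, _, _, a2⟩ => ?_, fun hj => ?_⟩⟩
  · obtain ⟨d, a1, a2⟩ := h3 _ le_rfl
    by_contra hne
    refine Nat.find_spec hQ ⟨c, Subset.rfl, d, a2, a1, ?_⟩
    rwa [Nat.bodd_succ, ← Bool.eq_not_iff.2 (Ne.symm hne)]
  · by_contra hj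
    obtain ⟨d', a3, a4⟩ := a2.down (show Nat.find hQ + 1 ≤ j by omega)
    exact Nat.find_spec hQ ⟨d', a3.trans a1, a4⟩
  · obtain ⟨d, a1, a2⟩ := h3 j hj
    obtain ⟨d', a3, a4, a5, a6, -⟩ := key _ _ a2
    exact ⟨d', a3.trans a1, a5.trans (Nat.mul_le_mul_right _ (by omega)), a6, a4⟩

end Pool.Agent.MP_a2d820_lc.h9
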